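import Pool.Agent.H57.EQ.Defs
import Pool.Agent.H74.GC.RED

/-!
# The reduction to the finite template with equality is computable in polynomial time
-/

set_option autoImplicit false

namespace Pool.Agent.H50.EQ

open Pool.Agent.H1.NP Pool.Agent.H1.PNP
open Pool.Agent.H68.OQP hiding eN eE
open Pool.Agent.H68.NPH hiding prs eN
open Function
open Pool.Agent.H68.BP (ph cV cC eE eN eZ code code_eq CSP csp_code csp_true code_of_cV ph_vals
  strOf polyOn_numsR lgF Sig Str IsHom)
open Pool.Agent.H68.BT (Wg Cv Corr rowG rowG_length rowG_map rowG_mem rowG_getD csp_nil)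
open Pool.Agent.H53.GC
open Pool.Agent.H74.GC (nest mem_nest)
open Pool.Agent.H57.EQ

variable {l env : List ℕ}

/-! ### The signature of the template -/

/-- The signature of the template. -/
@[reducible] def rT (σ : Sig) (M : ℕ) : Pool.Agent.H69.BP.Sig where
  Sym := Option (Fin σ.m)
  Ar := fun s => Fin (arP σ M s) × Fin (arP σ M s)
  finSym := inferInstance
  finAr := fun _ => inferInstance

/-- The numbering. -/
noncomputable def cvT (σ : Sig) (M : ℕ) :
    Cv (rT σ M) (sigOf (Option (Fin σ.m)) (fun s => Fin (arP σ M s) × Fin (arP σ M s))) where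
  e := Finite.equivFin (Option (Fin σ.m))
  a := fun s => (Finite.equivFin (Fin (arP σ M s) × Fin (arP σ M s))).trans (finCongr (by
    change _ = Nat.card (Fin (arP σ M ((Finite.equivFin (Option (Fin σ.m))).symm
      (Finite.equivFin (Option (Fin σ.m)) s))) × Fin (arP σ M ((Finite.equivFin
      (Option (Fin σ.m))).symm (Finite.equivFin (Option (Fin σ.m)) s))))
    rw [Equiv.symm_apply_apply]))

theorem strOn_corr {σ : Sig} {M : ℕ} {Y : Type}
    (R : (s : Option (Fin σ.m)) → (Fin (arP σ M s) × Fin (arP σ M s) → Y) → Prop) :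
    Corr (cvT σ M) (fun s x => R s x) (strOn R) := by
  intro s x
  have key : ∀ (s' : Option (Fin σ.m)) (h : s' = s)
      (hc : Nat.card (Fin (arP σ M s) × Fin (arP σ M s)) =
        Nat.card (Fin (arP σ M s') × Fin (arP σ M s')))
      (x : Fin (Nat.card (Fin (arP σ M s') × Fin (arP σ M s'))) → Y),
      R s' (fun p => x (Finite.equivFin (Fin (arP σ M s') × Fin (arP σ M s')) p)) ↔
      R s (x ∘ ((Finite.equivFin (Fin (arP σ M s) × Fin (arP σ M s))).trans
        (finCongr hc))) := by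
    rintro s' rfl hc x
    exact Iff.rfl
  exact key ((Finite.equivFin (Option (Fin σ.m))).symm (Finite.equivFin (Option (Fin σ.m)) s))
    (Equiv.symm_apply_apply _ _) _ x

/-! ### The rows -/

/-- pairs -/
def prE (a b : Ex) : Ex := .add b (.mul eN a)

/-- pairs of numbers -/
def prN (n : ℕ) {m : ℕ} (y : Fin m → ℕ) (p : Fin m × Fin m) : ℕ := y p.2 + n * y p.1

theorem prN_lt {m n : ℕ} {y : Fin m → ℕ} (h : ∀ a, y a < n) (p : Fin m × Fin m) :
    prN n y p < n * n := by
  have h2 := h p.1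
  have h3 := h p.2
  have h4 : n * (y p.1 + 1) ≤ n * n := Nat.mul_le_mul_left _ h2
  rw [Nat.mul_add, Nat.mul_one] at h4
  unfold prN
  omega

/-! ### The program -/

section prog

variable {σ : Sig} {M : ℕ}

/-- the rows -/
noncomputable def pA (σ : Sig) (M : ℕ) : Wg :=
  .seq (nest eN M (.row (rowG (cvT σ M) Ex.con (none : Option (Fin σ.m))
      (fun p : Fin M × Fin M => prE (Ex.var p.1) (Ex.var p.2)))))
    (.loop eZ (Wg.many (List.finRange σ.m) (fun l => .cond (cC σ l)
      (.row (rowG (cvT σ M) Ex.con (some l : Option (Fin σ.m))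
        (fun p : Fin (σ.ar l) × Fin (σ.ar l) => prE (eE σ (p.1 + 1)) (eE σ (p.2 + 1))))))))

/-- the whole program -/
noncomputable def pT (σ : Sig) (M : ℕ) : Lg :=
  cV.ite (.seq (.el (.mul eN eN)) (pA σ M).toLg) .nil

/-- the output -/
noncomputable def red (σ : Sig) (M : ℕ) (x : List Bool) : List ℕ :=
  (pT σ M).out (ph (σ.width + 1) x) []

theorem polyOn_red : PolyOn (fun w : List Bool => w) unary (red σ M) :=
  ((polyOn_numsR.comp (polyOn_lg (lgF (σ.width + 1)))).comp (polyOn_lg (pT σ M))).congr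
    (fun q => q) (fun _ => rfl) (fun _ => rfl)

theorem red_bad {x : List Bool} (h : ¬ cV.tv (ph (σ.width + 1) x) []) : red σ M x = [] := by
  unfold red pT
  rw [Cd.ite_out, if_neg h]
  rfl

/-- the row of a tuple -/
noncomputable def rw' (σ : Sig) (M n : ℕ) (s : Option (Fin σ.m))
    (y : Fin (arP σ M s) → Fin n) : List ℕ :=
  rowG (cvT σ M) id s (prN n (fun a => (y a : ℕ)))

variable {n : ℕ} {L : List (List ℕ)} (hL : ∀ c ∈ L, c.length = σ.width + 1)

include hL

theorem mem_pA {A : List ℕ} (hA : ph (σ.width + 1) (code n L) = A) (c : List ℕ) :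
    c ∈ (pA σ M).out A [] ↔ ∃ (s : Option (Fin σ.m)) (y : Fin (arP σ M s) → Fin n),
      relP (strOf σ n L) M s y ∧ c = rw' σ M n s y := by
  obtain ⟨M', hM, h0, h1, h2, h3, h4⟩ := ph_vals (n := n) hL
  rw [hA] at hM
  subst hM
  have hw : ∀ (l : Fin σ.m) (p : Fin (σ.ar l)), (p : ℕ) + 1 < σ.width + 1 := by
    intro l p
    have : σ.ar l ≤ σ.width := Finset.le_sup (f := σ.ar) (Finset.mem_univ l)
    have := p.2
    omega
  have hn : ∀ env, (eN).val A env = n := fun env => h2
  unfold pA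
  rw [Wg.mem_seq, mem_nest hn, Wg.mem_loop]
  constructor
  · rintro (⟨ys, e1, e2, h⟩ | ⟨j, hj, h⟩)
    · rw [Wg.mem_row, rowG_map] at h
      have hv : ∀ a : Fin M, (Ex.var a).val A (ys ++ []) = ys.getD a 0 := fun a => by
        simp only [Ex.val, List.append_nil]
      refine ⟨none, fun a => ⟨ys.getD a 0, ?_⟩, trivial, ?_⟩
      · have ha : (a : ℕ) < ys.length := by
          rw [e1]
          exact a.2
        rw [List.getD_eq_getElem?_getD, List.getElem?_eq_getElem ha]
        exact e2 _ (List.getElem_mem ha)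
      · rw [h]
        unfold rw'
        congr 1
        funext p
        simp only [prE, prN, Ex.val, hn, List.append_nil]
    · rw [Wg.mem_many] at h
      obtain ⟨l, -, h⟩ := h
      rw [Wg.mem_cond, Wg.mem_row, rowG_map] at h
      obtain ⟨hc, h⟩ := h
      simp only [cC, tv_and, tv_le, tv_eq, tv_all, tv_lt, eE, eZ, eN, Ex.val,
        List.getD_cons_zero, h1, h2] at hc
      obtain ⟨⟨c1, c2⟩, c3⟩ := hc
      have hj' : j < L.length := by
        have : (j + 1) * (σ.width + 1) ≤ L.length * (σ.width + 1) := by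
          rw [Nat.mul_comm (j + 1)]
          omega
        exact Nat.lt_of_succ_le (Nat.le_of_mul_le_mul_right this (by omega))
      rw [h4 j hj' 0 (by omega)] at c2
      have hv : ∀ p : Fin (σ.ar l), (eE σ (p + 1)).val A [j] = (L[j]).getD (p + 1) 0 := by
        intro p
        simp only [eE, Ex.val, List.getD_cons_zero]
        exact h4 j hj' _ (hw l p)
      have c4 : ∀ p : Fin (σ.ar l), (L[j]).getD (p + 1) 0 < n := by
        intro p
        have := c3 p (List.mem_finRange p)
        rwa [h4 j hj' _ (hw l p)] at this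
      refine ⟨some l, fun a => ⟨_, c4 a⟩, ⟨L[j], List.getElem_mem hj', c2, fun i => rfl⟩, ?_⟩
      rw [h]
      unfold rw'
      congr 1
      funext p
      have e1 := hv p.1
      have e2 := hv p.2
      simp only [prE, prN, Ex.val, hn]
      rw [← e1, ← e2]
  · rintro ⟨s, y, hr, rfl⟩
    cases s with
    | none =>
      left
      refine ⟨List.ofFn (fun a : Fin M => ((y a : Fin n) : ℕ)), by simp, ?_, ?_⟩
      · intro v hv
        rw [List.mem_ofFn] at hv
        obtain ⟨a, rfl⟩ := hv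
        exact (y a).2
      · rw [Wg.mem_row, rowG_map]
        have hv : ∀ a : Fin M, (Ex.var a).val A
            (List.ofFn (fun a : Fin M => ((y a : Fin n) : ℕ)) ++ []) = y a := fun a => by
          simp only [Ex.val, List.append_nil]
          rw [List.getD_eq_getElem?_getD, List.getElem?_ofFn, dif_pos a.2]
          rfl
        unfold rw'
        congr 1
        funext p
        have e1 := hv p.1
        have e2 := hv p.2
        simp only [prE, prN, Ex.val, hn] at e1 e2 ⊢
        rw [e1, e2]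
    | some l =>
      right
      obtain ⟨c', hc', c1, c2⟩ := hr
      obtain ⟨j, hj, rfl⟩ := List.getElem_of_mem hc'
      refine ⟨j, ?_, ?_⟩
      · simp only [eZ, Ex.val, h1]
        have : L.length ≤ L.length * (σ.width + 1) := Nat.le_mul_of_pos_right _ (by omega)
        omega
      · have hv : ∀ p : Fin (σ.ar l), (eE σ (p + 1)).val A [j] = y p := by
          intro p
          simp only [eE, Ex.val, List.getD_cons_zero]
          rw [h4 j hj _ (hw l p), c2 p]
        rw [Wg.mem_many]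
        refine ⟨l, List.mem_finRange l, ?_⟩
        rw [Wg.mem_cond, Wg.mem_row, rowG_map]
        refine ⟨?_, ?_⟩
        · simp only [cC, tv_and, tv_le, tv_eq, tv_all, tv_lt, eE, eZ, eN, Ex.val,
            List.getD_cons_zero, h1, h2]
          refine ⟨⟨?_, ?_⟩, ?_⟩
          · have : (j + 1) * (σ.width + 1) ≤ L.length * (σ.width + 1) :=
              Nat.mul_le_mul_right _ hj
            rw [Nat.mul_comm (j + 1)] at this
            omega
          · rw [h4 j hj 0 (by omega)]
            exact c1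
          · intro p _
            rw [h4 j hj _ (hw l p), c2 p]
            exact (y p).2
        · unfold rw'
          congr 1
          funext p
          have e1 := hv p.1
          have e2 := hv p.2
          simp only [prE, prN, Ex.val, hn]
          rw [e1, e2]

theorem red_code : ∃ L' : List (List ℕ), (∀ c ∈ L', c.length =
      (sigOf (Option (Fin σ.m)) (fun s => Fin (arP σ M s) × Fin (arP σ M s))).width + 1) ∧
    unary (red σ M (code n L)) = code (n * n) L' ∧
    ∀ c, c ∈ L' ↔ ∃ (s : Option (Fin σ.m)) (y : Fin (arP σ M s) → Fin n),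
      relP (strOf σ n L) M s y ∧ c = rw' σ M n s y := by
  obtain ⟨A, hM, h0, h1, h2, h3, h4⟩ := ph_vals (n := n) hL
  have hV : cV.tv A [] := by
    simp only [cV, tv_and, tv_le, tv_eq, Ex.val, h0, h3]
    exact ⟨le_rfl, trivial⟩
  refine ⟨(pA σ M).out A [], ?_, ?_, mem_pA hL hM⟩
  · intro c hc
    obtain ⟨s, y, -, rfl⟩ := (mem_pA hL hM c).1 hc
    exact rowG_length _ _ _ _
  · unfold red pT
    rw [hM, Cd.ite_out, if_pos hV, code_eq]
    simp only [Lg.out, Wg.toLg_out, eN, Ex.val, h2, List.singleton_append]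

omit hL

theorem strOf_rows {L' : List (List ℕ)} (hL' : ∀ c, c ∈ L' ↔ ∃ (s : Option (Fin σ.m))
      (y : Fin (arP σ M s) → Fin n), relP (strOf σ n L) M s y ∧ c = rw' σ M n s y)
      (s : Option (Fin σ.m)) (x : (rT σ M).Ar s → Fin (n * n)) :
    strOf (sigOf (Option (Fin σ.m)) (fun s => Fin (arP σ M s) × Fin (arP σ M s)))
        (n * n) L' ((cvT σ M).e s) (x ∘ ((cvT σ M).a s).symm) ↔
      ∃ y : Fin (arP σ M s) → Fin n, relP (strOf σ n L) M s y ∧
        ∀ p, prN n (fun a => (y a : ℕ)) p = (x p : ℕ) := by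
  have h1 : strOf (sigOf (Option (Fin σ.m)) (fun s => Fin (arP σ M s) × Fin (arP σ M s)))
        (n * n) L' ((cvT σ M).e s) (x ∘ ((cvT σ M).a s).symm) ↔
      ∃ c ∈ L', c.getD 0 0 = ((cvT σ M).e s : ℕ) ∧
        ∀ i : Fin ((sigOf (Option (Fin σ.m)) (fun s => Fin (arP σ M s) × Fin (arP σ M s))).ar
          ((cvT σ M).e s)), c.getD (i + 1) 0 = ((x ∘ ((cvT σ M).a s).symm) i : ℕ) := Iff.rfl
  rw [h1]
  constructor
  · rintro ⟨c, hc, h2⟩
    obtain ⟨s', y, hr, rfl⟩ := (hL' c).1 hc
    have h2' : (rowG (cvT σ M) id s' (prN n (fun a => (y a : ℕ)))).getD 0 0 =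
          ((cvT σ M).e s : ℕ) ∧
        ∀ i : Fin ((sigOf (Option (Fin σ.m)) (fun s => Fin (arP σ M s) × Fin (arP σ M s))).ar
          ((cvT σ M).e s)), (rowG (cvT σ M) id s' (prN n (fun a => (y a : ℕ)))).getD (i + 1) 0 =
          (fun i => ((x ∘ ((cvT σ M).a s).symm) i : ℕ)) i := h2
    obtain ⟨h3, h4⟩ := (rowG_mem (cvT σ M) (s := s') (s' := s)).1 h2'
    subst h3
    refine ⟨y, hr, fun p => ?_⟩
    have h5 := h4 p
    simp only [comp_apply, Equiv.symm_apply_apply] at h5
    exact h5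
  · rintro ⟨y, hr, h2⟩
    refine ⟨rw' σ M n s y, (hL' _).2 ⟨s, y, hr, rfl⟩, ?_⟩
    have h3 := (rowG_mem (cvT σ M) (s := s) (s' := s)
      (F := prN n (fun a => (y a : ℕ)))
      (x := fun i => ((x ∘ ((cvT σ M).a s).symm) i : ℕ))).2 ⟨rfl, fun p => ?_⟩
    · exact h3
    · simp only [comp_apply, Equiv.symm_apply_apply]
      exact h2 p

end prog

theorem hom_iff {σ : Sig} {M n : ℕ} {V X : Type} (𝔸 : Str σ V) (c : V → V → Option X)
    {Ls L' : List (List ℕ)} (hL' : ∀ c, c ∈ L' ↔ ∃ (s : Option (Fin σ.m))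
      (y : Fin (arP σ M s) → Fin n), relP (strOf σ n Ls) M s y ∧ c = rw' σ M n s y) :
    (∃ q : Fin n → Fin n → Option (X × Bool),
      ∀ (s : Option (Fin σ.m)) (y : Fin (arP σ M s) → Fin n), relP (strOf σ n Ls) M s y →
        ∃ (x : Fin (arP σ M s) → V) (T : V → V → Bool), relP 𝔸 M s x ∧ Tour T ∧
          ∀ a b, q (y a) (y b) = (c (x a) (x b)).map (fun t => (t, T (x a) (x b)))) ↔
    ∃ f : Fin (n * n) → Option (X × Bool),
      IsHom (strOf (sigOf (Option (Fin σ.m)) (fun s => Fin (arP σ M s) × Fin (arP σ M s)))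
        (n * n) L') (tpl 𝔸 M c) f := by
  have hT : Corr (cvT σ M) (fun s (q : (rT σ M).Ar s → Option (X × Bool)) =>
      ∃ (x : Fin (arP σ M s) → V) (T : V → V → Bool), relP 𝔸 M s x ∧ Tour T ∧
      ∀ a b, q (a, b) = (c (x a) (x b)).map (fun t => (t, T (x a) (x b))))
      (tpl 𝔸 M c) := strOn_corr _
  constructor
  · rintro ⟨q, hq⟩
    refine ⟨fun z => q (finProdFinEquiv.symm z).1 (finProdFinEquiv.symm z).2, ?_⟩
    intro l x hx
    obtain ⟨s, rfl⟩ := (cvT σ M).e.surjective l
    have e1 : x = (x ∘ (cvT σ M).a s) ∘ ((cvT σ M).a s).symm := by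
      funext i
      simp
    rw [e1] at hx
    obtain ⟨y, hr, he⟩ := (strOf_rows hL' s _).1 hx
    refine (hT s _).2 ?_
    obtain ⟨w, T, w1, w2, w3⟩ := hq s y hr
    refine ⟨w, T, w1, w2, fun a b => ?_⟩
    rw [← w3 a b]
    have e2 : x ((cvT σ M).a s (a, b)) = finProdFinEquiv (y a, y b) := by
      apply Fin.ext
      rw [finProdFinEquiv_apply_val]
      exact (he (a, b)).symm
    change q (finProdFinEquiv.symm (x ((cvT σ M).a s (a, b)))).1
      (finProdFinEquiv.symm (x ((cvT σ M).a s (a, b)))).2 = _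
    rw [e2, Equiv.symm_apply_apply]
  · rintro ⟨f, hf⟩
    refine ⟨fun i j => f (finProdFinEquiv (i, j)), ?_⟩
    intro s y hr
    have h1 := (strOf_rows hL' s
      (fun p => ⟨prN n (fun a => (y a : ℕ)) p, prN_lt (fun a => (y a).2) p⟩)).2
        ⟨y, hr, fun p => rfl⟩
    obtain ⟨w, T, w1, w2, w3⟩ := (hT s _).1 (hf _ _ h1)
    refine ⟨w, T, w1, w2, fun a b => ?_⟩
    rw [← w3 a b]
    simp only [comp_apply, Equiv.symm_apply_apply]
    congr 1

/-- The realization of families of types. -/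
def Real {V X : Type} (M : ℕ) (c : V → V → Option X) : Prop :=
  ∀ (n : ℕ) (φ : Fin n → Fin n → Option X),
    (∀ p : Fin M → Fin n, ∃ x : Fin M → V, ∀ a b, c (x a) (x b) = φ (p a) (p b)) →
    ∃ γ : Fin n → V, ∀ i j, c (γ i) (γ j) = φ i j

/-- correctness of the reduction -/
theorem re1 {σ : Sig} {V X : Type} (𝔸 : Str σ V) (M : ℕ) (c : V → V → Option X)
    (hR : Real M c) (hA : TyInv 𝔸 c) (n : ℕ) (𝕏 : Str σ (Fin n)) :
    (∃ f, IsHom 𝕏 𝔸 f) ↔ ∃ q : Fin n → Fin n → Option (X × Bool),
      ∀ (s : Option (Fin σ.m)) (y : Fin (arP σ M s) → Fin n), relP 𝕏 M s y →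
        ∃ (x : Fin (arP σ M s) → V) (T : V → V → Bool), relP 𝔸 M s x ∧ Tour T ∧
          ∀ a b, q (y a) (y b) = (c (x a) (x b)).map (fun t => (t, T (x a) (x b))) := by
  classical
  constructor
  · rintro ⟨f, hf⟩
    obtain ⟨T, hT⟩ : ∃ T : V → V → Bool, Tour T := by
      let _ := linearOrderOfSTO (WellOrderingRel (α := V))
      refine ⟨fun x y => decide (x < y), fun x y hxy => ?_⟩
      rcases lt_trichotomy x y with h | h | h
      · simp [h, not_lt_of_gt h]
      · exact absurd h hxy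
      · simp [h, not_lt_of_gt h]
    refine ⟨fun i j => (c (f i) (f j)).map (fun t => (t, T (f i) (f j))), fun s y hr => ?_⟩
    refine ⟨fun a => f (y a), T, ?_, hT, fun a b => rfl⟩
    cases s with
    | none => trivial
    | some l => exact hf l y hr
  · rintro ⟨q, hq⟩
    have hmap : ∀ {u v : V} {T : V → V → Bool} {i j : Fin n},
        q i j = (c u v).map (fun t => (t, T u v)) → c u v = (q i j).map Prod.fst := by
      intro u v T i j h
      rw [h, Option.map_map]
      cases c u v <;> rfl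
    obtain ⟨γ, hγ⟩ := hR n (fun i j => (q i j).map Prod.fst) (fun p => by
      obtain ⟨x, T, -, -, hx⟩ := hq none p trivial
      exact ⟨x, fun a b => hmap (hx a b)⟩)
    refine ⟨γ, fun l z hz => ?_⟩
    obtain ⟨x, T, hx1, -, hx2⟩ := hq (some l) z hz
    refine hA l x (fun i => γ (z i)) hx1 (fun a b => ?_)
    rw [hγ]
    exact (hmap (hx2 a b)).symm

theorem pf_RED {σ : Sig} {V X : Type} (𝔸 : Str σ V) (M : ℕ) (c : V → V → Option X)
    (hR : Real M c) (hA : TyInv 𝔸 c) :
    N793a5b8e.ManyOneReducible (CSP 𝔸) (CSP (tpl 𝔸 M c)) := by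
  refine manyOne (polyOn_red (σ := σ) (M := M))
    (Q := fun l => CSP (tpl 𝔸 M c) (unary l) = true) (fun p => Iff.rfl) (fun x => ?_)
  by_cases h : cV.tv (ph (σ.width + 1) x) []
  · obtain ⟨n, Ls, e1, rfl⟩ := code_of_cV h
    obtain ⟨L', e2, e3, e4⟩ := red_code (M := M) (n := n) e1
    rw [csp_code 𝔸 e1, e3, csp_code (tpl 𝔸 M c) e2, re1 𝔸 M c hR hA n (strOf σ n Ls)]
    exact hom_iff 𝔸 c e4
  · constructor
    · intro hx
      obtain ⟨n, Ls, h1, rfl⟩ := csp_true 𝔸 hx
      obtain ⟨M', hM, h0, -, -, h3, -⟩ := ph_vals (n := n) h1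
      refine absurd ?_ h
      rw [hM]
      simp only [cV, tv_and, tv_le, tv_eq, Ex.val, h0, h3]
      exact ⟨le_rfl, trivial⟩
    · intro hx
      rw [red_bad h] at hx
      exact absurd hx (csp_nil _)

end Pool.Agent.H50.EQ
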