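import Pool.Agent.H92.EQ.TT
import Pool.Agent.H89.EQ.L2

/-!
# Euler identities and homogeneity for functions of `(t, x)`
-/

set_option autoImplicit false

namespace Pool.Agent.H50.EQ

open scoped BigOperators ComplexConjugate ContDiff ComplexOrder Topology
open MeasureTheory Pool.Agent.H92.EQ Pool.Agent.H89.EQ Filter

section geom
variable {N : ℕ}

theorem move (l : ℂ) (z : Fin (N + 1) → ℂ) :
    ct (z 0) (l • tl z) = z + (l - 1) • ct 0 (tl z) := by
  funext a
  refine Fin.cases ?_ (fun i => ?_) a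
  · simp [ct]
  · simp only [ct, tl, Fin.cons_succ, Pi.smul_apply, Pi.add_apply, smul_eq_mul]
    ring

/-- The factor of the coordinate `a`. -/
def dg (N : ℕ) (l : ℂ) (a : Fin (N + 1)) : ℂ := if a = 0 then 1 else l

theorem dg_mul (l : ℂ) (z : Fin (N + 1) → ℂ) :
    (fun a => dg N l a * z a) = ct (z 0) (l • tl z) := by
  funext a
  refine Fin.cases ?_ (fun i => ?_) a
  · simp [ct, dg]
  · simp [ct, tl, dg, Fin.succ_ne_zero]

theorem dg_ne {l : ℂ} (hl : l ≠ 0) (a : Fin (N + 1)) : dg N l a ≠ 0 := by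
  unfold dg
  split_ifs
  · exact one_ne_zero
  · exact hl

theorem cont_tl : Continuous (tl : (Fin (N + 1) → ℂ) → Fin N → ℂ) :=
  continuous_pi fun i => continuous_apply i.succ

theorem open_WV {V : Set ℂ} (hV : IsOpen V) : IsOpen (WV N V) :=
  (hV.preimage (continuous_apply 0)).inter (isOpen_compl_singleton.preimage cont_tl)

theorem move_mem {V : Set ℂ} {l : ℂ} (hl : l ≠ 0) {z : Fin (N + 1) → ℂ} (hz : z ∈ WV N V) :
    ct (z 0) (l • tl z) ∈ WV N V := ⟨hz.1, smul_ne_zero hl hz.2⟩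

end geom

section chain
variable {ι : Type} [Fintype ι] [DecidableEq ι]

theorem t_chain (h0 : T_W0) (a : ι) (f : (ι → ℂ) → ℂ) (d : ι → ℂ) (z : ι → ℂ)
    (hf : DifferentiableAt ℝ f (fun b => d b * z b)) :
    wd a (fun w => f (fun b => d b * w b)) z = d a * wd a f (fun b => d b * z b) ∧
    wdb a (fun w => f (fun b => d b * w b)) z = conj (d a) * wdb a f (fun b => d b * z b) := by
  let L : (ι → ℂ) →L[ℝ] (ι → ℂ) :=
    ContinuousLinearMap.pi fun b => d b • (ContinuousLinearMap.proj (R := ℝ) b)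
  have hL : ∀ v : ι → ℂ, L v = fun b => d b * v b := fun v => rfl
  have h : HasFDerivAt (fun w : ι → ℂ => f (fun b => d b * w b))
      ((fderiv ℝ f (fun b => d b * z b)).comp L) z := by
    have hf' : HasFDerivAt f (fderiv ℝ f (fun b => d b * z b)) (L z) := hf.hasFDerivAt
    exact hf'.comp z L.hasFDerivAt
  have h1 : ∀ v, fderiv ℝ (fun w : ι → ℂ => f (fun b => d b * w b)) z v =
      fderiv ℝ f (fun b => d b * z b) (fun b => d b * v b) := by
    intro v
    rw [h.fderiv]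
    rfl
  have h2 : ∀ c : ℂ, fderiv ℝ f (fun b => d b * z b)
      (fun b => d b * (Pi.single a c : ι → ℂ) b) =
      wd a f (fun b => d b * z b) * (d a * c) +
        wdb a f (fun b => d b * z b) * conj (d a * c) := by
    intro c
    rw [h0, Finset.sum_eq_single a]
    · simp
    · intro b _ hb
      simp [Pi.single_eq_of_ne hb]
    · intro h
      exact absurd (Finset.mem_univ _) h
  constructor
  · change (fderiv ℝ (fun w => f (fun b => d b * w b)) z (Pi.single a 1) -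
      Complex.I * fderiv ℝ (fun w => f (fun b => d b * w b)) z (Pi.single a Complex.I)) / 2 = _
    rw [h1, h1, h2, h2, map_mul, map_mul, map_one, Complex.conj_I]
    linear_combination ((-(wd a f (fun b => d b * z b) * d a) +
      wdb a f (fun b => d b * z b) * conj (d a)) / 2) * Complex.I_mul_I
  · change (fderiv ℝ (fun w => f (fun b => d b * w b)) z (Pi.single a 1) +
      Complex.I * fderiv ℝ (fun w => f (fun b => d b * w b)) z (Pi.single a Complex.I)) / 2 = _
    rw [h1, h1, h2, h2, map_mul, map_mul, map_one, Complex.conj_I]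
    linear_combination ((wd a f (fun b => d b * z b) * d a -
      wdb a f (fun b => d b * z b) * conj (d a)) / 2) * Complex.I_mul_I

/-- Scaling of `mixD`. -/
theorem mixD_scale {p m : ℕ} (S S' : (Fin p → ι) → (Fin p → ι) → ℂ)
    (H H' : Fin m → Matrix ι ι ℂ) (μ ν : ι → ℂ)
    (hS : ∀ I J, S' I J = (∏ k, μ (I k)) * (∏ k, ν (J k)) * S I J)
    (hH : ∀ j a b, H' j a b = μ a * ν b * H j a b) :
    mixD S' H' = (∏ i, μ i) * (∏ i, ν i) * mixD S H := by
  unfold mixD
  rw [Finset.mul_sum]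
  refine Finset.sum_congr rfl fun e _ => ?_
  rw [Finset.mul_sum]
  refine Finset.sum_congr rfl fun e' _ => ?_
  have e1 : ∏ i, μ i = (∏ k, μ (e (Sum.inl k))) * ∏ j, μ (e (Sum.inr j)) := by
    rw [← e.prod_comp, Fintype.prod_sum_type]
  have e2 : ∏ i, ν i = (∏ k, ν (e' (Sum.inl k))) * ∏ j, ν (e' (Sum.inr j)) := by
    rw [← e'.prod_comp, Fintype.prod_sum_type]
  rw [hS, e1, e2]
  simp only [hH, Finset.prod_mul_distrib]
  ring

end chain

section euler
variable {N : ℕ} {V : Set ℂ} {c : ℝ} {u : (Fin (N + 1) → ℂ) → ℝ}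

theorem t_smooth (hu : LHT V c u) : ContDiffOn ℝ ∞ (cx u) (WV N V) :=
  Complex.ofRealCLM.contDiff.comp_contDiffOn hu.smooth

theorem t_ray (hV : IsOpen V) (hu : LHT V c u) {z : Fin (N + 1) → ℂ} (hz : z ∈ WV N V) (ξ : ℂ) :
    fderiv ℝ (cx u) z (ξ • ct 0 (tl z)) = ((c * ξ.re : ℝ) : ℂ) := by
  have hnh : WV N V ∈ 𝓝 z := (open_WV hV).mem_nhds hz
  have hd : DifferentiableAt ℝ (cx u) z :=
    ((t_smooth hu).contDiffAt hnh).differentiableAt (by simp)
  have hγ : HasDerivAt (fun t : ℝ => z + (Complex.exp (ξ * t) - 1) • ct 0 (tl z))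
      (ξ • ct 0 (tl z)) 0 := by
    have h1 : HasDerivAt (fun t : ℝ => ξ * (t : ℂ)) ξ 0 := by
      have := (Complex.ofRealCLM.hasDerivAt (x := (0 : ℝ))).const_mul ξ
      simpa using this
    have h2 := h1.cexp
    have h3 : Complex.exp (ξ * ((0 : ℝ) : ℂ)) * ξ = ξ := by simp
    rw [h3] at h2
    exact ((h2.sub_const 1).smul_const (ct 0 (tl z))).const_add z
  have hz0 : (fun t : ℝ => z + (Complex.exp (ξ * t) - 1) • ct 0 (tl z)) 0 = z := by simp
  have hd' : HasFDerivAt (cx u) (fderiv ℝ (cx u) z)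
      ((fun t : ℝ => z + (Complex.exp (ξ * t) - 1) • ct 0 (tl z)) 0) := by
    rw [hz0]
    exact hd.hasFDerivAt
  have h1 := hd'.comp_hasDerivAt (0 : ℝ) hγ
  have h2 : (cx u ∘ fun t : ℝ => z + (Complex.exp (ξ * t) - 1) • ct 0 (tl z)) =
      fun t : ℝ => ((u z : ℝ) : ℂ) + ((c * ξ.re : ℝ) : ℂ) * (t : ℂ) := by
    funext t
    change ((u (z + (Complex.exp (ξ * t) - 1) • ct 0 (tl z)) : ℝ) : ℂ) = _
    rw [← move, hu.hom _ z (Complex.exp_ne_zero _) hz, Complex.norm_exp, Real.log_exp]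
    have : (ξ * (t : ℂ)).re = ξ.re * t := by simp
    rw [this]
    push_cast
    ring
  rw [h2] at h1
  have h3 : HasDerivAt (fun t : ℝ => ((u z : ℝ) : ℂ) + ((c * ξ.re : ℝ) : ℂ) * (t : ℂ))
      ((c * ξ.re : ℝ) : ℂ) 0 := by
    have := ((Complex.ofRealCLM.hasDerivAt (x := (0 : ℝ))).const_mul
      ((c * ξ.re : ℝ) : ℂ)).const_add ((u z : ℝ) : ℂ)
    simpa using this
  exact h1.unique h3

theorem t_euler (h0 : T_W0) (hV : IsOpen V) (hu : LHT V c u) {z : Fin (N + 1) → ℂ}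
    (hz : z ∈ WV N V) :
    ∑ a, ct 0 (tl z) a * wd a (cx u) z = c / 2 ∧
      ∑ a, conj (ct 0 (tl z) a) * wdb a (cx u) z = c / 2 := by
  have h1 := t_ray hV hu hz 1
  have h2 := t_ray hV hu hz Complex.I
  rw [h0] at h1 h2
  have e1 : ∑ i, (wd i (cx u) z * ((1 : ℂ) • ct 0 (tl z)) i +
      wdb i (cx u) z * conj (((1 : ℂ) • ct 0 (tl z)) i)) =
      (∑ a, ct 0 (tl z) a * wd a (cx u) z) + ∑ a, conj (ct 0 (tl z) a) * wdb a (cx u) z := by
    rw [← Finset.sum_add_distrib]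
    refine Finset.sum_congr rfl fun i _ => ?_
    rw [one_smul]
    ring
  have e2 : ∑ i, (wd i (cx u) z * (Complex.I • ct 0 (tl z)) i +
      wdb i (cx u) z * conj ((Complex.I • ct 0 (tl z)) i)) =
      Complex.I * (∑ a, ct 0 (tl z) a * wd a (cx u) z) -
        Complex.I * ∑ a, conj (ct 0 (tl z) a) * wdb a (cx u) z := by
    rw [Finset.mul_sum, Finset.mul_sum, ← Finset.sum_sub_distrib]
    refine Finset.sum_congr rfl fun i _ => ?_
    rw [Pi.smul_apply, smul_eq_mul, map_mul, Complex.conj_I]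
    ring
  rw [e1, Complex.one_re, mul_one] at h1
  rw [e2, Complex.I_re, mul_zero, Complex.ofReal_zero, ← mul_sub] at h2
  have h3 := (mul_eq_zero.1 h2).resolve_left Complex.I_ne_zero
  constructor
  · linear_combination (1 / 2) * h1 + (1 / 2) * h3
  · linear_combination (1 / 2) * h1 - (1 / 2) * h3

theorem t_hom1 (h0 : T_W0) (hV : IsOpen V) (hu : LHT V c u) {z : Fin (N + 1) → ℂ}
    (hz : z ∈ WV N V) {l : ℂ} (hl : l ≠ 0) (a : Fin (N + 1)) :
    wd a (cx u) (ct (z 0) (l • tl z)) = (dg N l a)⁻¹ * wd a (cx u) z ∧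
      wdb a (cx u) (ct (z 0) (l • tl z)) = (conj (dg N l a))⁻¹ * wdb a (cx u) z := by
  have hlz := move_mem hl hz
  have hd : DifferentiableAt ℝ (cx u) (fun b => dg N l b * z b) := by
    rw [dg_mul]
    exact ((t_smooth hu).contDiffAt ((open_WV hV).mem_nhds hlz)).differentiableAt (by simp)
  obtain ⟨e1, e2⟩ := t_chain h0 a (cx u) (dg N l) z hd
  have h1 : (fun w => cx u (fun b => dg N l b * w b)) =ᶠ[𝓝 z]
      fun w => cx u w + ((c * Real.log ‖l‖ : ℝ) : ℂ) := by
    filter_upwards [(open_WV hV).mem_nhds hz] with w hw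
    rw [dg_mul]
    change ((u (ct (w 0) (l • tl w)) : ℝ) : ℂ) = ((u w : ℝ) : ℂ) + _
    rw [hu.hom l w hl hw]
    push_cast
    rfl
  obtain ⟨e3, e4⟩ := l2_congr h1 a
  have h2 : fderiv ℝ (fun w => cx u w + ((c * Real.log ‖l‖ : ℝ) : ℂ)) z =
      fderiv ℝ (cx u) z := fderiv_add_const _
  have e5 : wd a (fun w => cx u w + ((c * Real.log ‖l‖ : ℝ) : ℂ)) z = wd a (cx u) z := by
    unfold wd
    rw [h2]
  have e6 : wdb a (fun w => cx u w + ((c * Real.log ‖l‖ : ℝ) : ℂ)) z = wdb a (cx u) z := by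
    unfold wdb
    rw [h2]
  rw [e1, e5, dg_mul] at e3
  rw [e2, e6, dg_mul] at e4
  have hd0 := dg_ne (N := N) hl a
  have hcl : conj (dg N l a) ≠ 0 := (map_ne_zero _).2 hd0
  constructor
  · rw [← e3, inv_mul_cancel_left₀ hd0]
  · rw [← e4, inv_mul_cancel_left₀ hcl]

theorem t_wd (h6 : T_W6) (hV : IsOpen V) (hu : LHT V c u) (a : Fin (N + 1)) :
    ContDiffOn ℝ ∞ (fun w => wd a (cx u) w) (WV N V) ∧
      ContDiffOn ℝ ∞ (fun w => wdb a (cx u) w) (WV N V) :=
  h6 (Fin (N + 1)) a (cx u) (WV N V) (open_WV hV) (t_smooth hu)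

theorem t_diff (hV : IsOpen V) {f : (Fin (N + 1) → ℂ) → ℂ} (hf : ContDiffOn ℝ ∞ f (WV N V))
    {z : Fin (N + 1) → ℂ} (hz : z ∈ WV N V) : DifferentiableAt ℝ f z :=
  (hf.contDiffAt ((open_WV hV).mem_nhds hz)).differentiableAt (by simp)

theorem t_hess (h0 : T_W0) (h1 : T_W1) (h6 : T_W6) (hV : IsOpen V) (hu : LHT V c u)
    {z : Fin (N + 1) → ℂ} (hz : z ∈ WV N V) {l : ℂ} (hl : l ≠ 0) (a b : Fin (N + 1)) :
    hessR u (ct (z 0) (l • tl z)) a b =
      (dg N l a)⁻¹ * (conj (dg N l b))⁻¹ * hessR u z a b := by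
  have hlz := move_mem hl hz
  have hdb := (t_wd h6 hV hu b).2
  have e1 := (t_chain h0 a (fun w => wdb b (cx u) w) (dg N l) z
    (by rw [dg_mul]; exact t_diff hV hdb hlz)).1
  have e2 : (fun w => wdb b (cx u) (fun b => dg N l b * w b)) =ᶠ[𝓝 z]
      fun w => (conj (dg N l b))⁻¹ * wdb b (cx u) w := by
    filter_upwards [(open_WV hV).mem_nhds hz] with w hw
    rw [dg_mul]
    exact (t_hom1 h0 hV hu hw hl b).2
  have e3 := (h1 (Fin (N + 1)) a (fun _ => (conj (dg N l b))⁻¹) (fun w => wdb b (cx u) w) z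
    (differentiableAt_const _) (t_diff hV hdb hz)).2.2.1
  rw [(l2_const a _ z).1, mul_zero, add_zero] at e3
  have e4 := (l2_congr e2 a).1
  rw [e3] at e4
  rw [e4, dg_mul] at e1
  have hd0 := dg_ne (N := N) hl a
  change wd a (fun w => wdb b (cx u) w) (ct (z 0) (l • tl z)) =
    _ * wd a (fun w => wdb b (cx u) w) z
  rw [mul_assoc, e1, inv_mul_cancel_left₀ hd0]

theorem t_kill (h0 : T_W0) (h1 : T_W1) (h5 : T_W5) (h6 : T_W6) (h8 : T_W8) (hV : IsOpen V)
    (hu : LHT V c u) {z : Fin (N + 1) → ℂ} (hz : z ∈ WV N V) :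
    MKilL (ct 0 (tl z)) (hessR u z) ∧ MKilR (ct 0 (tl z)) (hessR u z) ∧
      (hessR u z).IsHermitian := by
  have hnh := (open_WV hV).mem_nhds hz
  have h2le : (2 : WithTop ℕ∞) ≤ ∞ := WithTop.coe_le_coe.2 (le_top : (2 : ℕ∞) ≤ ⊤)
  have h2 : ContDiffAt ℝ 2 (cx u) z := ((t_smooth hu).contDiffAt hnh).of_le h2le
  have h2r : ContDiffAt ℝ 2 u z := (hu.smooth.contDiffAt hnh).of_le h2le
  have hH := (h8 (Fin (N + 1)) u z).2 h2r
  have hct : ∀ a : Fin (N + 1), ∀ w : Fin (N + 1) → ℂ,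
      ct 0 (tl w) a = (if a = 0 then 0 else 1 : ℂ) * w a := by
    intro a w
    refine Fin.cases ?_ (fun i => ?_) a
    · simp [ct]
    · simp [ct, tl, Fin.succ_ne_zero]
  have hc : ∀ a, DifferentiableAt ℝ (fun w : Fin (N + 1) → ℂ => w a) z := fun a =>
    (ContinuousLinearMap.proj (R := ℝ) (φ := fun _ : Fin (N + 1) => ℂ) a).differentiableAt
  have hKL : MKilL (ct 0 (tl z)) (hessR u z) := by
    intro b
    have e1 : wdb b (fun w => ∑ a, ct 0 (tl w) a * wd a (cx u) w) z = 0 := by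
      have e2 : (fun w => ∑ a, ct 0 (tl w) a * wd a (cx u) w) =ᶠ[𝓝 z] fun _ => (c / 2 : ℂ) := by
        filter_upwards [hnh] with w hw
        exact (t_euler h0 hV hu hw).1
      rw [(l2_congr e2 b).2]
      exact (l2_const b _ z).2
    have hc2 : ∀ a, DifferentiableAt ℝ (fun w : Fin (N + 1) → ℂ => ct 0 (tl w) a) z := by
      intro a
      simp only [hct]
      exact (hc a).const_mul _
    have hc3 : ∀ a, wdb b (fun w : Fin (N + 1) → ℂ => ct 0 (tl w) a) z = 0 := by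
      intro a
      simp only [hct]
      rw [(h1 (Fin (N + 1)) b (fun _ => (if a = 0 then 0 else 1 : ℂ)) (fun w => w a) z
        (differentiableAt_const _) (hc a)).2.2.2.1, l2_coord, (l2_const b _ z).2, mul_zero,
        mul_zero, add_zero]
    rw [l2_sum b (fun a w => ct 0 (tl w) a * wd a (cx u) w) z
      (fun a => (hc2 a).mul (t_diff hV (t_wd h6 hV hu a).1 hz))] at e1
    refine Eq.trans (Finset.sum_congr rfl fun a _ => ?_) e1
    rw [(h1 (Fin (N + 1)) b (fun w => ct 0 (tl w) a) (fun w => wd a (cx u) w) z (hc2 a)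
      (t_diff hV (t_wd h6 hV hu a).1 hz)).2.2.2.1, hc3, mul_zero, add_zero,
      ← (h5 (Fin (N + 1)) a b (cx u) z h2).2.2]
    rfl
  refine ⟨hKL, ?_, hH⟩
  intro a
  have e1 := congrArg conj (hKL a)
  rw [map_sum, map_zero] at e1
  refine Eq.trans (Finset.sum_congr rfl fun b _ => ?_) e1
  rw [map_mul]
  have := congrFun (congrFun hH a) b
  rw [Matrix.conjTranspose_apply] at this
  rw [← this]
  rfl

end euler

section radial
variable {N : ℕ}

theorem nsq_smul (l : ℂ) (x : Fin N → ℂ) : nsq (l • x) = ‖l‖ ^ 2 * nsq x := by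
  unfold nsq
  rw [Finset.mul_sum]
  refine Finset.sum_congr rfl fun i _ => ?_
  rw [Pi.smul_apply, smul_eq_mul, norm_mul, mul_pow]

theorem nsq_pos {x : Fin N → ℂ} (hx : x ≠ 0) : 0 < nsq x := by
  obtain ⟨i, hi⟩ := Function.ne_iff.1 hx
  refine lt_of_lt_of_le (b := ‖x i‖ ^ 2) (pow_pos (norm_pos_iff.2 hi) 2) ?_
  exact Finset.single_le_sum (f := fun i => ‖x i‖ ^ 2) (fun i _ => by positivity)
    (Finset.mem_univ i)

theorem nsq_smooth : ContDiff ℝ ∞ (nsq : (Fin N → ℂ) → ℝ) := by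
  unfold nsq
  refine ContDiff.sum fun i _ => ?_
  exact (contDiff_apply ℝ ℂ i).norm_sq ℝ

theorem ellT_LHT : LHT (N := N) Set.univ 1 ellT := by
  constructor
  · have h1 : ContDiff ℝ ∞ (tl : (Fin (N + 1) → ℂ) → Fin N → ℂ) :=
      contDiff_pi.2 fun i => contDiff_apply ℝ ℂ i.succ
    have h2 : ContDiffOn ℝ ∞ (fun z : Fin (N + 1) → ℂ => nsq (tl z)) (WV N Set.univ) :=
      (nsq_smooth.comp h1).contDiffOn
    have h3 := (h2.log fun z hz => (nsq_pos hz.2).ne').const_smul (1 / 2 : ℝ)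
    exact h3
  · intro l z hl hz
    change ell (l • tl z) = ell (tl z) + 1 * Real.log ‖l‖
    unfold ell
    have hl0 : 0 < ‖l‖ := norm_pos_iff.2 hl
    rw [nsq_smul, Real.log_mul (by positivity) (nsq_pos hz.2).ne', Real.log_pow]
    push_cast
    ring

theorem RadT_move (h0 : T_W0) {z : Fin (N + 1) → ℂ} (hz : tl z ≠ 0) {l : ℂ} (hl : l ≠ 0)
    (a b : Fin (N + 1)) : RadT (ct (z 0) (l • tl z)) a b =
      (dg N l a)⁻¹ * (conj (dg N l b))⁻¹ * RadT z a b := by
  have hz' : z ∈ WV N Set.univ := ⟨Set.mem_univ _, hz⟩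
  change wd a (cx ellT) _ * wdb b (cx ellT) _ = _ * (wd a (cx ellT) z * wdb b (cx ellT) z)
  rw [(t_hom1 h0 isOpen_univ ellT_LHT hz' hl a).1, (t_hom1 h0 isOpen_univ ellT_LHT hz' hl b).2]
  ring

theorem RadT_herm (h8 : T_W8) (z : Fin (N + 1) → ℂ) : (RadT z).IsHermitian := by
  ext a b
  rw [Matrix.conjTranspose_apply]
  change star (wd b (cx ellT) z * wdb a (cx ellT) z) = wd a (cx ellT) z * wdb b (cx ellT) z
  rw [(h8 (Fin (N + 1)) ellT z).1 a, (h8 (Fin (N + 1)) ellT z).1 b]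
  simp only [star_mul', RCLike.star_def, Complex.conj_conj]
  ring

end radial

section main
variable {N p m : ℕ}

/-- The slots. -/
noncomputable def sl (v : Fin m → (Fin (N + 1) → ℂ) → ℝ) (z : Fin (N + 1) → ℂ) :
    Fin (m + 1) → Matrix (Fin (N + 1)) (Fin (N + 1)) ℂ :=
  Fin.snoc (α := fun _ => Matrix (Fin (N + 1)) (Fin (N + 1)) ℂ)
    (fun j => hessR (v j) z) (RadT z)

theorem sl_last (v : Fin m → (Fin (N + 1) → ℂ) → ℝ) (z : Fin (N + 1) → ℂ) :
    sl v z (Fin.last m) = RadT z := by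
  unfold sl
  rw [Fin.snoc_last]

theorem sl_cast (v : Fin m → (Fin (N + 1) → ℂ) → ℝ) (z : Fin (N + 1) → ℂ) (j : Fin m) :
    sl v z j.castSucc = hessR (v j) z := by
  unfold sl
  rw [Fin.snoc_castSucc]

theorem QT_scale (h0 : T_W0) (h1 : T_W1) (h6 : T_W6) {V : Set ℂ} (hV : IsOpen V)
    {S : Form (Fin (N + 1)) p} {v : Fin m → (Fin (N + 1) → ℂ) → ℝ} {c : Fin m → ℝ}
    (hS : FormT V S) (hv : ∀ j, LHT V (c j) (v j)) {z : Fin (N + 1) → ℂ} (hz : z ∈ WV N V)
    {l : ℂ} (hl : l ≠ 0) :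
    QT S v (ct (z 0) (l • tl z)) = (‖l‖ ^ (2 * N))⁻¹ * QT S v z := by
  have h := mixD_scale (S z) (S (ct (z 0) (l • tl z))) (sl v z) (sl v (ct (z 0) (l • tl z)))
    (fun a => if a = 0 then 1 else l⁻¹) (fun a => if a = 0 then 1 else (conj l)⁻¹)
    (fun I J => hS.hom l z hl hz I J) (by
      intro j a b
      have e1 : (dg N l a)⁻¹ = if a = 0 then 1 else l⁻¹ := by
        unfold dg; split_ifs <;> simp
      have e2 : (conj (dg N l b))⁻¹ = if b = 0 then 1 else (conj l)⁻¹ := by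
        unfold dg; split_ifs <;> simp
      rw [← e1, ← e2]
      refine Fin.lastCases ?_ (fun j => ?_) j
      · rw [sl_last, sl_last]
        exact RadT_move h0 hz.2 hl a b
      · rw [sl_cast, sl_cast]
        exact t_hess h0 h1 h6 hV (hv j) hz hl a b)
  have e3 : (∏ i : Fin (N + 1), if i = 0 then (1 : ℂ) else l⁻¹) *
      (∏ i : Fin (N + 1), if i = 0 then (1 : ℂ) else (conj l)⁻¹) =
      (((‖l‖ ^ (2 * N))⁻¹ : ℝ) : ℂ) := by
    rw [Fin.prod_univ_succ, Fin.prod_univ_succ]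
    simp only [Fin.succ_ne_zero, if_true, if_false, one_mul, Finset.prod_const,
      Finset.card_univ, Fintype.card_fin]
    rw [← mul_pow, ← mul_inv, Complex.mul_conj, Complex.normSq_eq_norm_sq, pow_mul]
    push_cast
    rw [inv_pow]
  change (mixD _ (sl v (ct (z 0) (l • tl z)))).re = _ * (mixD (S z) (sl v z)).re
  rw [h, e3, Complex.re_ofReal_mul]

theorem QT_real (h0 : T_W0) (h1 : T_W1) (h5 : T_W5) (h6 : T_W6) (h8 : T_W8) (hA5 : T_A5)
    {V : Set ℂ} (hV : IsOpen V)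
    {S : Form (Fin (N + 1)) p} {v : Fin m → (Fin (N + 1) → ℂ) → ℝ} {c : Fin m → ℝ}
    (hS : FormT V S) (hv : ∀ j, LHT V (c j) (v j)) {z : Fin (N + 1) → ℂ} (hz : z ∈ WV N V) :
    (QT S v z : ℂ) = mixD (S z) (sl v z) := by
  have h := (hA5 (Fin (N + 1)) p (m + 1) (S z) (sl v z) (hS.psd z hz) (by
    intro j
    refine Fin.lastCases ?_ (fun j => ?_) j
    · rw [sl_last]
      exact RadT_herm h8 z
    · rw [sl_cast]
      exact (t_kill h0 h1 h5 h6 h8 hV (hv j) hz).2.2)).2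
  apply Complex.ext
  · rfl
  · rw [h, Complex.ofReal_im]

theorem QT_cont (h6 : T_W6) {V : Set ℂ} (hV : IsOpen V)
    {S : Form (Fin (N + 1)) p} {v : Fin m → (Fin (N + 1) → ℂ) → ℝ} {c : Fin m → ℝ}
    (hS : FormT V S) (hv : ∀ j, LHT V (c j) (v j)) :
    ContinuousOn (fun z => QT S v z) (WV N V) := by
  have hsl : ∀ (j : Fin (m + 1)) (a b : Fin (N + 1)),
      ContinuousOn (fun z => sl v z j a b) (WV N V) := by
    intro j a b
    refine Fin.lastCases ?_ (fun j => ?_) j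
    · simp only [sl_last]
      have hsub : WV N V ⊆ WV N Set.univ := fun z hz => ⟨Set.mem_univ _, hz.2⟩
      exact (((t_wd h6 isOpen_univ (ellT_LHT (N := N)) a).1.continuousOn).mono hsub).mul
        (((t_wd h6 isOpen_univ (ellT_LHT (N := N)) b).2.continuousOn).mono hsub)
    · simp only [sl_cast]
      exact (h6 (Fin (N + 1)) a _ (WV N V) (open_WV hV) (t_wd h6 hV (hv j) b).2).1.continuousOn
  change ContinuousOn (fun z => (mixD (S z) (sl v z)).re) (WV N V)
  refine Complex.continuous_re.comp_continuousOn ?_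
  unfold mixD
  refine continuousOn_finsetSum _ fun e _ => continuousOn_finsetSum _ fun e' _ => ?_
  exact (continuousOn_const.mul (hS.cf.smooth _ _).continuousOn).mul
    (continuousOn_finsetProd _ fun j _ => hsl j _ _)

/-- The case `N = 0`. -/
theorem QT_zero (S : Form (Fin (0 + 1)) p) (v : Fin m → (Fin (0 + 1) → ℂ) → ℝ)
    (z : Fin (0 + 1) → ℂ) : QT S v z = 0 := by
  have h0 : (cx ellT : (Fin (0 + 1) → ℂ) → ℂ) = fun _ => 0 := by
    funext w
    simp [cx, ellT, ell, nsq]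
  have hR : ∀ a b, RadT z a b = 0 := by
    intro a b
    change wd a (cx ellT) z * wdb b (cx ellT) z = 0
    rw [h0, (l2_const a 0 z).1, zero_mul]
  change (mixD (S z) (sl v z)).re = 0
  have : mixD (S z) (sl v z) = 0 := by
    unfold mixD
    refine Finset.sum_eq_zero fun e _ => Finset.sum_eq_zero fun e' _ => ?_
    apply mul_eq_zero_of_right
    apply Finset.prod_eq_zero (Finset.mem_univ (Fin.last m))
    rw [sl_last, hR]
  rw [this, Complex.zero_re]

theorem nsq_cont : Continuous (nsq : (Fin N → ℂ) → ℝ) := nsq_smooth.continuous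

theorem ell_meas : Measurable (ell : (Fin N → ℂ) → ℝ) := by
  unfold ell
  exact (Real.measurable_log.comp nsq_cont.measurable).const_mul _

/-- The compact shell. -/
def shc (N : ℕ) : Set (Fin N → ℂ) := {x | 1 ≤ nsq x ∧ nsq x ≤ Real.exp 2}

theorem shc_compact : IsCompact (shc N) := by
  refine Metric.isCompact_of_isClosed_isBounded ?_ ?_
  · exact (isClosed_le continuous_const nsq_cont).inter (isClosed_le nsq_cont continuous_const)
  · refine (Metric.isBounded_closedBall (x := (0 : Fin N → ℂ)) (r := Real.exp 1)).subset ?_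
    intro x hx
    rw [mem_closedBall_zero_iff, pi_norm_le_iff_of_nonneg (Real.exp_pos 1).le]
    intro i
    have h1 : ‖x i‖ ^ 2 ≤ nsq x :=
      Finset.single_le_sum (f := fun i => ‖x i‖ ^ 2) (fun i _ => by positivity)
        (Finset.mem_univ i)
    have h2 : ‖x i‖ ^ 2 ≤ Real.exp 1 ^ 2 := by
      rw [← Real.exp_nat_mul]
      refine (h1.trans hx.2).trans (le_of_eq ?_)
      congr 1
      norm_num
    exact (pow_le_pow_iff_left₀ (norm_nonneg _) (Real.exp_pos 1).le two_ne_zero).1 h2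

/-- The shell without the origin. -/
def sho (N : ℕ) : Set (Fin N → ℂ) := {z | 0 ≤ ell z ∧ ell z < 1} \ {0}

theorem sho_sub : sho N ⊆ shc N := by
  rintro x ⟨⟨h1, h2⟩, h3⟩
  have hp : 0 < nsq x := nsq_pos h3
  unfold ell at h1 h2
  constructor
  · have : 0 ≤ Real.log (nsq x) := by linarith
    exact (Real.log_nonneg_iff hp).1 this
  · have : Real.log (nsq x) ≤ 2 := by linarith
    exact (Real.log_le_iff_le_exp hp).1 this

theorem sho_meas : MeasurableSet (sho N) :=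
  ((measurableSet_le measurable_const ell_meas).inter
    (measurableSet_lt ell_meas measurable_const)).diff (measurableSet_singleton _)

theorem Iint_sho (ψ : (Fin (N + 1) → ℂ) → ℝ) : Iint ψ = ∫ x in sho (N + 1), ψ x := by
  unfold Iint sho
  apply setIntegral_congr_set
  exact (sdiff_null_ae_eq_self (measure_singleton (0 : Fin (N + 1) → ℂ))).symm

theorem mT_cont (h6 : T_W6) {V : Set ℂ} (hV : IsOpen V)
    {S : Form (Fin (N + 1)) p} {v : Fin m → (Fin (N + 1) → ℂ) → ℝ} {c : Fin m → ℝ}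
    (hS : FormT V S) (hv : ∀ j, LHT V (c j) (v j)) : ContinuousOn (mT S v) V := by
  rcases Nat.eq_zero_or_pos N with hN | hN
  · subst hN
    have : mT S v = fun _ => 0 := by
      funext t
      unfold mT Iint
      simp only [QT_zero]
      exact integral_zero _ _
    rw [this]
    exact continuousOn_const
  obtain ⟨n, rfl⟩ : ∃ n, N = n + 1 := ⟨N - 1, by omega⟩
  have hQ := QT_cont h6 hV hS hv
  set G : ℂ × (Fin (n + 1) → ℂ) → ℝ := fun y => QT S v (ct y.1 y.2) with hG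
  have hct : Continuous (fun y : ℂ × (Fin (n + 1) → ℂ) => ct y.1 y.2) := by
    refine continuous_pi fun a => ?_
    refine Fin.cases ?_ (fun i => ?_) a
    · exact continuous_fst
    · exact (continuous_apply i).comp continuous_snd
  have hGc : ContinuousOn G (V ×ˢ {0}ᶜ) :=
    hQ.comp hct.continuousOn fun y hy => ⟨hy.1, hy.2⟩
  have hop : IsOpen (V ×ˢ ({0}ᶜ : Set (Fin (n + 1) → ℂ))) := hV.prod isOpen_compl_singleton
  intro t₀ ht₀
  apply ContinuousAt.continuousWithinAt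
  obtain ⟨r, hr, hrV⟩ := Metric.isOpen_iff.1 hV t₀ ht₀
  have hKV : Metric.closedBall t₀ (r / 2) ⊆ V :=
    (Metric.closedBall_subset_ball (by linarith)).trans hrV
  have hA0 : shc (n + 1) ⊆ {0}ᶜ := by
    intro x hx h0
    rw [Set.mem_singleton_iff] at h0
    subst h0
    have := hx.1
    simp [nsq] at this
    linarith
  obtain ⟨M, hM⟩ := ((isCompact_closedBall t₀ (r / 2)).prod
    (shc_compact (N := n + 1))).exists_bound_of_continuousOn
      (hGc.mono (Set.prod_mono hKV hA0))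
  have hfun : mT S v = fun t => ∫ x in sho (n + 1), G (t, x) := by
    funext t
    unfold mT
    rw [Iint_sho]
  rw [hfun]
  have hne : ∀ x ∈ sho (n + 1), x ≠ 0 := fun x hx => hx.2
  refine continuousAt_of_dominated (bound := fun _ => M) ?_ ?_ ?_ ?_
  · filter_upwards [hV.mem_nhds ht₀] with t ht
    have h1 : ContinuousOn (fun x => G (t, x)) (sho (n + 1)) :=
      hGc.comp (Continuous.prodMk_right t).continuousOn fun x hx => ⟨ht, hne x hx⟩
    exact h1.aestronglyMeasurable sho_meas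
  · filter_upwards [Metric.closedBall_mem_nhds t₀ (by linarith : 0 < r / 2)] with t ht
    refine ae_restrict_of_forall_mem sho_meas fun x hx => ?_
    exact hM (t, x) ⟨ht, sho_sub hx⟩
  · refine integrable_const_iff.2 (Or.inr ?_)
    rw [isFiniteMeasure_restrict]
    exact ((measure_mono sho_sub).trans_lt shc_compact.measure_lt_top).ne
  · refine ae_restrict_of_forall_mem sho_meas fun x hx => ?_
    have h1 : ContinuousAt G (t₀, x) := hGc.continuousAt (hop.mem_nhds ⟨ht₀, hne x hx⟩)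
    exact h1.comp (f := fun t => (t, x)) (Continuous.prodMk_left x).continuousAt

end main

/-- Row TC. -/
theorem pf_TC (h0 : T_W0) (h1 : T_W1) (h5 : T_W5) (h6 : T_W6) (h8 : T_W8) (hA5 : T_A5) :
    T_TC := by
  intro N p m V S v c hV hS hv
  refine ⟨?_, ?_, ?_, QT_cont h6 hV hS hv, mT_cont h6 hV hS hv⟩
  · intro z hz j
    obtain ⟨e1, e2⟩ := t_euler h0 hV (hv j) hz
    obtain ⟨e3, e4, -⟩ := t_kill h0 h1 h5 h6 h8 hV (hv j) hz
    exact ⟨e1, e2, e3, e4⟩
  · intro z hz l hl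
    exact QT_scale h0 h1 h6 hV hS hv hz hl
  · intro z hz
    exact QT_real h0 h1 h5 h6 h8 hA5 hV hS hv hz

end Pool.Agent.H50.EQ
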