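import Pool.Agent.H57.EQ.Targets
import Pool.Agent.H18.SF.OR

/-!
# Edge-coloured graphs with free amalgamation: the coloured order
-/

set_option autoImplicit false

namespace Pool.Agent.H50.EQ

open Pool.Agent.H68.BP Pool.Agent.H58.SF Pool.Agent.H53.GC Pool.Agent.H53.NR
open Pool.Agent.H57.EQ
open Pool.Agent.H18.SF (ty exists_aut_of_ty)
open Function

section

variable {τ σ : Sig} {B : Type} {𝔹 : Str τ B}

/-- the first place -/
def p0 (h2 : ∀ l, τ.ar l = 2) (l : Fin τ.m) : Fin (τ.ar l) := ⟨0, by rw [h2 l]; omega⟩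

/-- the second place -/
def p1 (h2 : ∀ l, τ.ar l = 2) (l : Fin τ.m) : Fin (τ.ar l) := ⟨1, by rw [h2 l]; omega⟩

/-- the pair `(x, y)` -/
def pr {W : Type} (l : Fin τ.m) (x y : W) : Fin (τ.ar l) → W := fun i => if (i : ℕ) = 0 then x else y

theorem pr_p0 {W : Type} (h2 : ∀ l, τ.ar l = 2) (l : Fin τ.m) (x y : W) :
    pr l x y (p0 h2 l) = x := by simp [pr, p0]

theorem pr_p1 {W : Type} (h2 : ∀ l, τ.ar l = 2) (l : Fin τ.m) (x y : W) :
    pr l x y (p1 h2 l) = y := by simp [pr, p1]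

theorem eq_pr {W : Type} (h2 : ∀ l, τ.ar l = 2) (l : Fin τ.m) (z : Fin (τ.ar l) → W) :
    z = pr l (z (p0 h2 l)) (z (p1 h2 l)) := by
  funext i
  have h := h2 l
  have hi := i.2
  rcases (by omega : i.1 = 0 ∨ i.1 = 1) with h1 | h1
  · have e : i = p0 h2 l := Fin.ext h1
    rw [e, pr_p0]
  · have e : i = p1 h2 l := Fin.ext h1
    rw [e, pr_p1]

theorem comp_pr {W W' : Type} (g : W → W') (l : Fin τ.m) (x y : W) :
    (fun i => g ((pr l x y : Fin (τ.ar l) → W) i)) = pr l (g x) (g y) := by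
  funext i
  simp only [pr]
  split_ifs <;> rfl

theorem pr_symm (hE : ECG 𝔹) (l : Fin τ.m) (x y : B) : 𝔹 l (pr l x y) → 𝔹 l (pr l y x) := by
  intro h
  have h1 := hE.symm l _ h
  have e : (fun i => (pr l x y : Fin (τ.ar l) → B) i.rev) = pr l y x := by
    rw [eq_pr hE.two l (fun i => (pr l x y : Fin (τ.ar l) → B) i.rev)]
    have h2 := hE.two l
    have e1 : (p0 hE.two l).rev = p1 hE.two l := by
      apply Fin.ext
      simp only [Fin.val_rev, p0, p1]
      omega
    have e2 : (p1 hE.two l).rev = p0 hE.two l := by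
      apply Fin.ext
      simp only [Fin.val_rev, p0, p1]
      omega
    simp only [e1, e2, pr_p0, pr_p1]
  rw [e] at h1
  exact h1

theorem pr_ne (hE : ECG 𝔹) (l : Fin τ.m) (x : B) : ¬ 𝔹 l (pr l x x) := by
  intro h
  have h1 := hE.irr l _ h
  have h2 : p0 hE.two l = p1 hE.two l := h1 (by rw [pr_p0, pr_p1])
  have h3 := congrArg Fin.val h2
  simp [p0, p1] at h3

theorem ec_some {x y : B} {t : EC 𝔹} : ec 𝔹 x y = some t ↔ x ≠ y ∧ ∀ l, t.1 l ↔ 𝔹 l (pr l x y) := by
  unfold ec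
  by_cases h : x = y
  · simp [h]
  · rw [dif_neg h, Option.some_inj]
    constructor
    · rintro rfl
      exact ⟨h, fun l => Iff.rfl⟩
    · rintro ⟨-, h1⟩
      apply Subtype.ext
      funext l
      exact propext (h1 l).symm

theorem ec_none {x y : B} : ec 𝔹 x y = none ↔ x = y := by
  unfold ec
  by_cases h : x = y
  · simp [h]
  · simp [h]

theorem ec_symm (hE : ECG 𝔹) (x y : B) : ec 𝔹 x y = ec 𝔹 y x := by
  by_cases h : x = y
  · rw [h]
  · obtain ⟨t, ht⟩ := Option.ne_none_iff_exists'.1 (fun h' => h (ec_none.1 h') : ec 𝔹 x y ≠ none)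
    rw [ht]
    symm
    obtain ⟨h1, h2⟩ := ec_some.1 ht
    exact ec_some.2 ⟨h1.symm, fun l => (h2 l).trans ⟨pr_symm hE l _ _, pr_symm hE l _ _⟩⟩

end

theorem pf_ECC : T_ECC := by
  intro τ B 𝔹 hE
  refine ⟨fun x y => ec_none, ec_symm hE, fun t => ?_⟩
  obtain ⟨x, y, h1, h2⟩ := t.2
  exact ⟨x, y, ec_some.2 ⟨h1, h2⟩⟩

theorem pf_ECF : T_ECF := by
  intro τ B 𝔹 M hE hB hF
  obtain ⟨b⟩ := hB
  obtain ⟨f, hf1, hf2⟩ := hF 2 (fun _ _ => False) (by
    intro m s _ _ hirr
    have hm : m ≤ 1 := by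
      by_contra hm
      obtain ⟨l, z, hz, -⟩ := hirr ⟨0, by omega⟩ ⟨1, by omega⟩ (by simp)
      exact hz
    refine ⟨fun _ => b, fun i j _ => Fin.ext (by omega), fun l z => ?_⟩
    constructor
    · intro h
      exact h.elim
    · intro h
      have e : (fun i => (fun _ => b : Fin m → B) (z i)) = pr l b b := by
        funext i
        simp [pr]
      rw [e] at h
      exact (pr_ne hE l b h).elim)
  refine ⟨⟨fun _ => False, f 0, f 1, fun h => ?_, fun l => ?_⟩, fun l h => h⟩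
  · exact absurd (hf1 h) (by decide)
  · have h1 := hf2 l (pr l 0 1)
    rw [comp_pr] at h1
    exact h1

section

variable {τ σ : Sig} {B : Type} {𝔹 : Str τ B}

/-- the colour of a pair -/
def dd {n : ℕ} (d : Fin n → Fin n → EC 𝔹) (i j : Fin n) : EC 𝔹 := if i < j then d i j else d j i

/-- the structure given by the colours -/
def SX (h2 : ∀ l, τ.ar l = 2) {n : ℕ} (d : Fin n → Fin n → EC 𝔹) : Str τ (Fin n) := fun l z =>
  z (p0 h2 l) ≠ z (p1 h2 l) ∧ (dd d (z (p0 h2 l)) (z (p1 h2 l))).1 l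

theorem dd_symm {n : ℕ} (d : Fin n → Fin n → EC 𝔹) {i j : Fin n} (h : i ≠ j) :
    dd d i j = dd d j i := by
  unfold dd
  rcases lt_or_gt_of_ne h with h1 | h1
  · rw [if_pos h1, if_neg (not_lt_of_gt h1)]
  · rw [if_neg (not_lt_of_gt h1), if_pos h1]

end

theorem pf_ECU (hFB2 : T_FB2) : T_ECU := by
  intro τ B 𝔹 M en hen hE hB hH hF fr hfr
  let _ : LinearOrder B := LinearOrder.lift' en hen
  intro n d hd
  have h2 := hE.two
  have hemb : Embeds (SX h2 d) 𝔹 := by
    refine hF n (SX h2 d) fun m s hm hs hirr => ?_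
    have hmono : StrictMono (s ∘ Tuple.sort s) :=
      (Tuple.monotone_sort s).strictMono_of_injective (hs.comp (Tuple.sort s).injective)
    have hne : ∀ a b, a ≠ b → dd d (s a) (s b) ≠ fr := by
      intro a b hab heq
      obtain ⟨l, z, ⟨hz1, hz2⟩, ⟨p, hp⟩, ⟨q, hq⟩⟩ := hirr a b hab
      have e1 : ∀ i : Fin (τ.ar l), i = p0 h2 l ∨ i = p1 h2 l := by
        intro i
        have h := h2 l
        have hi := i.2
        rcases (by omega : i.1 = 0 ∨ i.1 = 1) with h1 | h1
        · exact Or.inl (Fin.ext h1)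
        · exact Or.inr (Fin.ext h1)
      have e2 : dd d (s (z (p0 h2 l))) (s (z (p1 h2 l))) = dd d (s a) (s b) := by
        rcases e1 p with rfl | rfl <;> rcases e1 q with rfl | rfl
        · exact absurd (hp.symm.trans hq) hab
        · rw [hp, hq]
        · rw [hp, hq]
          exact dd_symm d (fun h => hab (hs h).symm)
        · exact absurd (hp.symm.trans hq) hab
      rw [e2, heq] at hz2
      exact hfr l hz2
    obtain ⟨v, hv⟩ := hd m (s ∘ Tuple.sort s) hm hmono (by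
      intro i j hij heq
      refine hne (Tuple.sort s i) (Tuple.sort s j) (fun h => hij.ne ((Tuple.sort s).injective h)) ?_
      have h3 := hmono hij
      simp only [comp_apply] at h3 heq
      unfold dd
      rw [if_pos h3]
      exact heq)
    have hv2 : ∀ a b, a ≠ b → ec 𝔹 (v ((Tuple.sort s).symm a)) (v ((Tuple.sort s).symm b)) =
        some (dd d (s a) (s b)) := by
      intro a b hab
      have hne' : (Tuple.sort s).symm a ≠ (Tuple.sort s).symm b := fun h =>
        hab ((Tuple.sort s).symm.injective h)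
      rcases lt_or_gt_of_ne hne' with h | h
      · rw [hv _ _ h]
        have h3 := hmono h
        simp only [comp_apply, Equiv.apply_symm_apply] at h3 ⊢
        unfold dd
        rw [if_pos h3]
      · rw [ec_symm hE, hv _ _ h]
        have h3 := hmono h
        simp only [comp_apply, Equiv.apply_symm_apply] at h3 ⊢
        unfold dd
        rw [if_neg (not_lt_of_gt h3)]
    refine ⟨fun a => v ((Tuple.sort s).symm a), ?_, fun l z => ?_⟩
    · intro a b hab
      by_contra hne'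
      have h3 := hv2 a b hne'
      have h4 : ec 𝔹 (v ((Tuple.sort s).symm a)) (v ((Tuple.sort s).symm b)) = none :=
        ec_none.2 hab
      rw [h4] at h3
      exact Option.some_ne_none _ h3.symm
    · obtain ⟨a, ha⟩ : ∃ a, a = z (p0 h2 l) := ⟨_, rfl⟩
      obtain ⟨b, hb⟩ : ∃ b, b = z (p1 h2 l) := ⟨_, rfl⟩
      have e1 : pull (SX h2 d) s l z ↔ s a ≠ s b ∧ (dd d (s a) (s b)).1 l := by
        rw [ha, hb]
        exact Iff.rfl
      have e2 : (fun i => v ((Tuple.sort s).symm (z i))) =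
          pr l (v ((Tuple.sort s).symm a)) (v ((Tuple.sort s).symm b)) := by
        rw [ha, hb]
        exact eq_pr h2 l (fun i => v ((Tuple.sort s).symm (z i)))
      change pull (SX h2 d) s l z ↔ 𝔹 l (fun i => v ((Tuple.sort s).symm (z i)))
      rw [e1, e2]
      by_cases hab : a = b
      · rw [hab]
        constructor
        · rintro ⟨h, -⟩
          exact absurd rfl h
        · intro h
          exact (pr_ne hE l _ h).elim
      · have h3 := (ec_some.1 (hv2 a b hab)).2 l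
        rw [← h3]
        exact ⟨fun h => h.2, fun h => ⟨fun h' => hab (hs h'), h⟩⟩
  obtain ⟨f, hf, hf'⟩ := hFB2 τ B 𝔹 M en hen hH hF n (SX h2 d) hemb
  refine ⟨f, hf', fun i j hij => ec_some.2 ⟨fun h => hij.ne (hf.1 h), fun l => ?_⟩⟩
  have h3 := hf.2 l (pr l i j)
  rw [comp_pr] at h3
  rw [← h3]
  change _ ↔ pr l i j (p0 h2 l) ≠ pr l i j (p1 h2 l) ∧
    (dd d (pr l i j (p0 h2 l)) (pr l i j (p1 h2 l))).1 l
  rw [pr_p0, pr_p1]
  unfold dd
  rw [if_pos hij]
  exact ⟨fun h => ⟨hij.ne, h⟩, fun h => h.2⟩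

theorem pf_ECI : T_ECI := by
  intro τ σ B 𝔹 𝔸 hE hH hS l x y hx hxy
  have h2 := hE.two
  have key : ty 𝔹 y = ty 𝔹 x := by
    refine Prod.ext ?_ ?_
    · funext i j
      change (y i = y j) = (x i = x j)
      rw [← ec_none (𝔹 := 𝔹), ← ec_none (𝔹 := 𝔹), hxy]
    · funext l' t
      change 𝔹 l' (fun k => y (t k)) = 𝔹 l' (fun k => x (t k))
      rw [eq_pr h2 l' (fun k => y (t k)), eq_pr h2 l' (fun k => x (t k))]
      have h3 := hxy (t (p0 h2 l')) (t (p1 h2 l'))
      by_cases h : x (t (p0 h2 l')) = x (t (p1 h2 l'))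
      · rw [ec_none.2 h] at h3
        have h4 := ec_none.1 h3
        simp only [h, h4]
        exact propext ⟨fun h5 => (pr_ne hE l' _ h5).elim, fun h5 => (pr_ne hE l' _ h5).elim⟩
      · obtain ⟨t', ht'⟩ := Option.ne_none_iff_exists'.1 (fun h' => h (ec_none.1 h') :
          ec 𝔹 (x (t (p0 h2 l'))) (x (t (p1 h2 l'))) ≠ none)
        rw [ht'] at h3
        have h4 := (ec_some.1 ht').2 l'
        have h5 := (ec_some.1 h3).2 l'
        exact propext (h5.symm.trans h4)
  obtain ⟨g, hg, hg'⟩ := exists_aut_of_ty hH y x key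
  have h3 := (hS g hg l x).1 hx
  have e : (fun i => g (x i)) = y := funext hg'
  rw [e] at h3
  exact h3

theorem pf_OLG : T_OLG := by
  intro τ σ B 𝔹 𝔸 _ hB hR n
  classical
  have hfin : (Set.range (ty 𝔹 (n := n))).Finite := Set.toFinite _
  have hch : ∀ p : (Fin n → Fin n → Prop) × ((l : Fin τ.m) → (Fin (τ.ar l) → Fin n) → Prop),
      ∃ y : Option (Fin n → B), ∀ x : Fin n → B, ty 𝔹 x = p → ∃ z, y = some z ∧ ty 𝔹 z = p := by
    intro p
    by_cases h : ∃ x : Fin n → B, ty 𝔹 x = p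
    · obtain ⟨x, hx⟩ := h
      exact ⟨some x, fun _ _ => ⟨x, rfl, hx⟩⟩
    · exact ⟨none, fun x hx => absurd ⟨x, hx⟩ h⟩
  choose y hy using hch
  refine ⟨(hfin.toFinset.image y).eraseNone, fun x => ?_⟩
  obtain ⟨z, hz, hz'⟩ := hy (ty 𝔹 x) x rfl
  refine ⟨z, ?_, ?_⟩
  · rw [Finset.mem_eraseNone, Finset.mem_image]
    refine ⟨ty 𝔹 x, ?_, hz⟩
    rw [Set.Finite.mem_toFinset]
    exact ⟨x, rfl⟩
  · obtain ⟨g, hg, hg'⟩ := exists_aut_of_ty hB x z hz'.symm
    exact ⟨g, hR g hg, hg'⟩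

end Pool.Agent.H50.EQ
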