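import Mathlib
import Pool.Agent.H71.EQ.Targets

/-!
# MP_7ecdd4_nt, row CHR: admissible tuples with given excess and local conditions
-/

set_option autoImplicit false

open Pool.Agent.H38.AE.Statement Pool.Agent.H38.AT Pool.Agent.H71.EQ Finset

namespace Pool.Agent.H50.EQ.CHR

theorem pr_eq {n : ℕ} (x : Fin n → ℤ) : pr x = ∏ i, (x i).natAbs := by
  unfold pr
  exact map_prod Int.natAbsHom _ _

theorem pr_ne {n : ℕ} {x : Fin n → ℤ} (hx : ∀ i, x i ≠ 0) : pr x ≠ 0 := by
  rw [pr_eq, Finset.prod_ne_zero_iff]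
  intro i _
  exact Int.natAbs_ne_zero.2 (hx i)

theorem fac_pr {n : ℕ} {x : Fin n → ℤ} (hx : ∀ i, x i ≠ 0) (p : ℕ) :
    (pr x).factorization p = ∑ i, (x i).natAbs.factorization p := by
  rw [pr_eq, Nat.factorization_prod fun i _ => Int.natAbs_ne_zero.2 (hx i),
    Finsupp.finsetSum_apply]

theorem rd_eq {n : ℕ} (x : Fin n → ℤ) : rd x = ∏ q ∈ (pr x).primeFactors, q := rfl

theorem rd_dvd {n : ℕ} (x : Fin n → ℤ) : rd x ∣ pr x := by
  rw [rd_eq]
  exact Nat.prod_primeFactors_dvd _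

theorem exc_ne {n : ℕ} {x : Fin n → ℤ} (hx : ∀ i, x i ≠ 0) : exc x ≠ 0 := by
  unfold exc
  have h1 : 0 < pr x := Nat.pos_of_ne_zero (pr_ne hx)
  exact (Nat.div_pos (Nat.le_of_dvd h1 (rd_dvd x)) (Nat.pos_of_dvd_of_pos (rd_dvd x) h1)).ne'

theorem fac_rd {n : ℕ} (x : Fin n → ℤ) (p : ℕ) :
    (rd x).factorization p = if (pr x).factorization p = 0 then 0 else 1 := by
  rw [rd_eq, Nat.factorization_prod fun q hq => (Nat.prime_of_mem_primeFactors hq).ne_zero,
    Finsupp.finsetSum_apply]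
  have h1 : ∀ q ∈ (pr x).primeFactors, q.factorization p = if q = p then 1 else 0 := by
    intro q hq
    rw [(Nat.prime_of_mem_primeFactors hq).factorization, Finsupp.single_apply]
  rw [Finset.sum_congr rfl h1, Finset.sum_ite_eq']
  by_cases h : (pr x).factorization p = 0
  · rw [if_pos h, if_neg]
    rw [← Nat.support_factorization, Finsupp.mem_support_iff]
    exact not_not.2 h
  · rw [if_neg h, if_pos]
    rw [← Nat.support_factorization, Finsupp.mem_support_iff]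
    exact h

theorem fac_exc {n : ℕ} {x : Fin n → ℤ} (hx : ∀ i, x i ≠ 0) (p : ℕ) :
    (exc x).factorization p = ∑ i, (x i).natAbs.factorization p - 1 := by
  unfold exc
  rw [Nat.factorization_div (rd_dvd x), Finsupp.tsub_apply, fac_rd x p, ← fac_pr hx]
  split
  · next h => rw [h]
  · rfl

theorem dvd_iff {a : ℤ} (ha : a ≠ 0) {p : ℕ} (hp : p.Prime) (m : ℕ) :
    (p : ℤ) ^ m ∣ a ↔ m ≤ a.natAbs.factorization p := by
  rw [← hp.pow_dvd_iff_le_factorization (Int.natAbs_ne_zero.2 ha), ← Int.natCast_dvd]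
  push_cast
  rfl

/-- the local condition in terms of the valuations -/
theorem loc_iff {n : ℕ} {x : Fin n → ℤ} (hx : ∀ i, x i ≠ 0) {p : ℕ} (hp : p.Prime) (j : ℕ)
    (h : ∀ a b, a ≠ b → ¬ ((p : ℤ) ∣ x a ∧ (p : ℤ) ∣ x b)) :
    (if j = 0 then ∀ a, ¬ ((p : ℤ) ^ 2 ∣ x a)
      else ∃ a, (p : ℤ) ^ (j + 1) ∣ x a ∧ ¬ ((p : ℤ) ^ (j + 2) ∣ x a)) ↔
      (exc x).factorization p = j := by
  rw [fac_exc hx p]
  set v : Fin n → ℕ := fun i => (x i).natAbs.factorization p with hv
  have h1 : ∀ a m, (p : ℤ) ^ m ∣ x a ↔ m ≤ v a := fun a m => dvd_iff (hx a) hp m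
  have h2 : ∀ a b, a ≠ b → ¬ (1 ≤ v a ∧ 1 ≤ v b) := by
    intro a b hab
    rw [← h1, ← h1, pow_one]
    exact h a b hab
  have h3 : (∀ a, v a = 0) ∨ ∃ a, 1 ≤ v a ∧ ∀ b, b ≠ a → v b = 0 := by
    by_cases h4 : ∃ a, 1 ≤ v a
    · obtain ⟨a, ha⟩ := h4
      refine Or.inr ⟨a, ha, fun b hb => ?_⟩
      have := h2 b a hb
      omega
    · refine Or.inl fun a => ?_
      by_contra h5
      exact h4 ⟨a, Nat.one_le_iff_ne_zero.2 h5⟩
  show _ ↔ ∑ i, v i - 1 = j
  rcases h3 with h3 | ⟨a, ha, h3⟩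
  · rw [Finset.sum_eq_zero fun i _ => h3 i]
    by_cases hj : j = 0
    · rw [if_pos hj]
      refine ⟨fun _ => hj.symm, fun _ a => ?_⟩
      rw [h1, h3 a]
      omega
    · rw [if_neg hj]
      constructor
      · rintro ⟨a, ha, -⟩
        rw [h1, h3 a] at ha
        omega
      · intro h4
        omega
  · rw [Finset.sum_eq_single a (fun b _ hb => h3 b hb) fun h4 => absurd (Finset.mem_univ a) h4]
    by_cases hj : j = 0
    · rw [if_pos hj]
      constructor
      · intro h4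
        have h5 := h4 a
        rw [h1] at h5
        omega
      · intro h4 b
        rw [h1]
        by_cases hb : b = a
        · rw [hb]
          omega
        · rw [h3 b hb]
          omega
    · rw [if_neg hj]
      constructor
      · rintro ⟨b, hb1, hb2⟩
        rw [h1] at hb1 hb2
        have hb : b = a := by
          by_contra hb
          rw [h3 b hb] at hb1
          omega
        rw [hb] at hb1 hb2
        omega
      · intro h4
        refine ⟨a, ?_, ?_⟩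
        · rw [h1]
          omega
        · rw [h1]
          omega

theorem cop_iff (a b : ℤ) : IsCoprime a b ↔ ∀ p : ℕ, p.Prime → ¬ ((p : ℤ) ∣ a ∧ (p : ℤ) ∣ b) := by
  rw [Int.isCoprime_iff_gcd_eq_one]
  constructor
  · rintro h p hp ⟨h1, h2⟩
    have h3 : p ∣ Int.gcd a b := Nat.dvd_gcd (Int.natCast_dvd.1 h1) (Int.natCast_dvd.1 h2)
    rw [h] at h3
    exact hp.one_lt.ne' (Nat.dvd_one.1 h3)
  · intro h
    by_contra h1
    obtain ⟨p, hp, hpd⟩ := Nat.exists_prime_and_dvd h1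
    exact h p hp ⟨Int.natCast_dvd.2 (hpd.trans (Nat.gcd_dvd_left _ _)),
      Int.natCast_dvd.2 (hpd.trans (Nat.gcd_dvd_right _ _))⟩

end Pool.Agent.H50.EQ.CHR

namespace Pool.Agent.H50.EQ

open CHR

/-- CHR: admissible tuples with excess `E` are described by the local conditions. -/
theorem pf_CHR : T_CHR := by
  intro n x E hE hx hs
  constructor
  · rintro ⟨⟨-, h1, -⟩, rfl⟩ p hp
    have h2 : ∀ a b, a ≠ b → ¬ ((p : ℤ) ∣ x a ∧ (p : ℤ) ∣ x b) := fun a b hab =>
      (cop_iff _ _).1 (h1 a b hab) p hp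
    exact ⟨h2, (loc_iff hx hp _ h2).2 rfl⟩
  · intro h
    refine ⟨⟨hx, fun a b hab => (cop_iff _ _).2 fun p hp => (h p hp).1 a b hab, hs⟩, ?_⟩
    refine Nat.eq_of_factorization_eq (exc_ne hx) (by omega) fun p => ?_
    by_cases hp : p.Prime
    · exact (loc_iff hx hp _ (h p hp).1).1 (h p hp).2
    · rw [Nat.factorization_eq_zero_of_not_prime _ hp, Nat.factorization_eq_zero_of_not_prime _ hp]

end Pool.Agent.H50.EQ
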