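import Pool.Agent.H57.EQ.Targets
import Pool.Agent.H68.BG.Main

/-!
# The constant case
-/

set_option autoImplicit false

namespace Pool.Agent.H50.EQ

open Pool.Agent.H68.BP Pool.Agent.H58.SF Pool.Agent.H53.GC Pool.Agent.H57.EQ

/-- If all constant maps are endomorphisms, then there is a template with one element. -/
theorem pf_CON (hOLS : T_OLS) : T_CON := by
  intro σ V 𝔸 hV hC
  obtain ⟨v⟩ := hV
  refine ⟨hOLS _ _ _ ⟨fun _ => (), fun l x hx => hx 0, fun _ _ => ⟨rfl, rfl⟩⟩, id,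
    N68a2faeb.isPolyTime_id, fun x => ?_⟩
  have key : ∀ (n : ℕ) (𝕏 : Str σ (Fin n)), (∃ f, IsHom 𝕏 𝔸 f) ↔ ∃ f, IsHom 𝕏 (one 𝔸) f := by
    intro n 𝕏
    constructor
    · rintro ⟨f, hf⟩
      exact ⟨fun _ => (), fun l z hz => ⟨_, hf l z hz⟩⟩
    · rintro ⟨f, hf⟩
      refine ⟨fun _ => v, fun l z hz => ?_⟩
      obtain ⟨y, hy⟩ := hf l z hz
      exact hC l y hy v
  unfold CSP
  congr 1
  refine propext ⟨?_, ?_⟩
  · rintro ⟨n, L, h1, h2, h3⟩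
    exact ⟨n, L, h1, h2, (key n _).1 h3⟩
  · rintro ⟨n, L, h1, h2, h3⟩
    exact ⟨n, L, h1, h2, (key n _).2 h3⟩

end Pool.Agent.H50.EQ
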