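import Pool.Agent.H92.EQ.TF2

/-!
# Positivity of the exterior product
-/

namespace Pool.Agent.H50.EQ

open scoped BigOperators ComplexConjugate ContDiff ComplexOrder
open MeasureTheory Pool.Agent.H92.EQ

/-- Splitting off the coordinate `a` of a multi-index. -/
theorem sum_split {ι : Type} [Fintype ι] [DecidableEq ι] {p : ℕ} (a : Fin (p + 1))
    (F : (Fin (p + 1) → ι) → ℂ) :
    ∑ I, F I = ∑ I' : Fin p → ι, ∑ x : ι, F (a.insertNth (α := fun _ => ι) x I') := by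
  rw [← (Fin.insertNthEquiv (fun _ => ι) a).sum_comp, Fintype.sum_prod_type, Finset.sum_comm]
  rfl

theorem insertNth_comp {ι : Type} {p : ℕ} (a : Fin (p + 1)) (x : ι) (I : Fin p → ι) :
    (a.insertNth (α := fun _ => ι) x I) ∘ a.succAbove = I := by
  funext i
  simp

/-- One pair of positions. -/
theorem pair_ab {ι : Type} [Fintype ι] [DecidableEq ι] {p : ℕ}
    (S : (Fin p → ι) → (Fin p → ι) → ℂ) (c : (Fin (p + 1) → ι) → ℂ) (v : ι → ℂ)
    (a b : Fin (p + 1)) :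
    ∑ I, ∑ J, c I * conj (c J) * (S (I ∘ a.succAbove) (J ∘ b.succAbove) *
      (v (I a) * conj (v (J b)))) =
    ∑ I' : Fin p → ι, ∑ J' : Fin p → ι,
      (∑ x, c (a.insertNth (α := fun _ => ι) x I') * v x) *
      conj (∑ y, c (b.insertNth (α := fun _ => ι) y J') * v y) * S I' J' := by
  rw [sum_split a]
  refine Finset.sum_congr rfl fun I' _ => ?_
  have h : ∀ x : ι, (∑ J, c (a.insertNth (α := fun _ => ι) x I') * conj (c J) *
      (S ((a.insertNth (α := fun _ => ι) x I') ∘ a.succAbove) (J ∘ b.succAbove) *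
      (v ((a.insertNth (α := fun _ => ι) x I' : Fin (p + 1) → ι) a) * conj (v (J b))))) =
      ∑ J' : Fin p → ι, c (a.insertNth (α := fun _ => ι) x I') * v x *
        conj (∑ y, c (b.insertNth (α := fun _ => ι) y J') * v y) * S I' J' := by
    intro x
    rw [sum_split b]
    refine Finset.sum_congr rfl fun J' _ => ?_
    rw [map_sum, Finset.mul_sum, Finset.sum_mul]
    refine Finset.sum_congr rfl fun y _ => ?_
    rw [insertNth_comp, insertNth_comp, Fin.insertNth_apply_same, Fin.insertNth_apply_same,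
      map_mul]
    ring
  rw [Finset.sum_congr rfl fun x _ => h x, Finset.sum_comm]
  refine Finset.sum_congr rfl fun J' _ => ?_
  rw [Finset.sum_mul, Finset.sum_mul]

/-- A rank one matrix. -/
theorem rank_one {ι : Type} [Fintype ι] [DecidableEq ι] {p : ℕ}
    (S : (Fin p → ι) → (Fin p → ι) → ℂ) (hS : Psd S) (c : (Fin (p + 1) → ι) → ℂ) (v : ι → ℂ) :
    0 ≤ ∑ a : Fin (p + 1), ∑ b : Fin (p + 1), (-1 : ℂ) ^ ((a : ℕ) + (b : ℕ)) *
      ∑ I, ∑ J, c I * conj (c J) * (S (I ∘ a.succAbove) (J ∘ b.succAbove) *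
        (v (I a) * conj (v (J b)))) := by
  set e : Fin (p + 1) → (Fin p → ι) → ℂ := fun a I' =>
    ∑ x, c (a.insertNth (α := fun _ => ι) x I') * v x with he
  have h := hS (fun I' => ∑ a : Fin (p + 1), (-1 : ℂ) ^ (a : ℕ) * e a I')
  refine h.trans (le_of_eq ?_)
  have h1 : ∀ I' J', (∑ a : Fin (p + 1), (-1 : ℂ) ^ (a : ℕ) * e a I') *
      conj (∑ b : Fin (p + 1), (-1 : ℂ) ^ (b : ℕ) * e b J') * S I' J' =
      ∑ a : Fin (p + 1), ∑ b : Fin (p + 1), (-1 : ℂ) ^ ((a : ℕ) + (b : ℕ)) *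
        (e a I' * conj (e b J') * S I' J') := by
    intro I' J'
    rw [map_sum, Finset.sum_mul_sum, Finset.sum_mul]
    refine Finset.sum_congr rfl fun a _ => ?_
    rw [Finset.sum_mul]
    refine Finset.sum_congr rfl fun b _ => ?_
    rw [map_mul, map_pow, map_neg, map_one, pow_add]
    ring
  simp only [h1]
  have h2 : ∀ a b : Fin (p + 1), (∑ I, ∑ J, c I * conj (c J) *
      (S (I ∘ a.succAbove) (J ∘ b.succAbove) * (v (I a) * conj (v (J b))))) =
      ∑ I' : Fin p → ι, ∑ J' : Fin p → ι, e a I' * conj (e b J') * S I' J' := fun a b =>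
    pair_ab S c v a b
  simp only [h2]
  -- exchange the sums
  calc ∑ I' : Fin p → ι, ∑ J' : Fin p → ι, ∑ a : Fin (p + 1), ∑ b : Fin (p + 1),
        (-1 : ℂ) ^ ((a : ℕ) + (b : ℕ)) * (e a I' * conj (e b J') * S I' J')
      = ∑ I' : Fin p → ι, ∑ a : Fin (p + 1), ∑ J' : Fin p → ι, ∑ b : Fin (p + 1),
        (-1 : ℂ) ^ ((a : ℕ) + (b : ℕ)) * (e a I' * conj (e b J') * S I' J') :=
        Finset.sum_congr rfl fun I' _ => Finset.sum_comm
    _ = ∑ a : Fin (p + 1), ∑ I' : Fin p → ι, ∑ J' : Fin p → ι, ∑ b : Fin (p + 1),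
        (-1 : ℂ) ^ ((a : ℕ) + (b : ℕ)) * (e a I' * conj (e b J') * S I' J') := Finset.sum_comm
    _ = ∑ a : Fin (p + 1), ∑ b : Fin (p + 1), (-1 : ℂ) ^ ((a : ℕ) + (b : ℕ)) *
        ∑ I' : Fin p → ι, ∑ J' : Fin p → ι, e a I' * conj (e b J') * S I' J' := by
        refine Finset.sum_congr rfl fun a _ => ?_
        calc ∑ I' : Fin p → ι, ∑ J' : Fin p → ι, ∑ b : Fin (p + 1),
              (-1 : ℂ) ^ ((a : ℕ) + (b : ℕ)) * (e a I' * conj (e b J') * S I' J')
            = ∑ I' : Fin p → ι, ∑ b : Fin (p + 1), ∑ J' : Fin p → ι,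
              (-1 : ℂ) ^ ((a : ℕ) + (b : ℕ)) * (e a I' * conj (e b J') * S I' J') :=
              Finset.sum_congr rfl fun I' _ => Finset.sum_comm
          _ = ∑ b : Fin (p + 1), ∑ I' : Fin p → ι, ∑ J' : Fin p → ι,
              (-1 : ℂ) ^ ((a : ℕ) + (b : ℕ)) * (e a I' * conj (e b J') * S I' J') :=
              Finset.sum_comm
          _ = _ := by
              refine Finset.sum_congr rfl fun b _ => ?_
              rw [Finset.mul_sum]
              refine Finset.sum_congr rfl fun I' _ => ?_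
              rw [Finset.mul_sum]

/-- Exchange of four sums. -/
theorem sum4 {α β γ δ : Type} [Fintype α] [Fintype β] [Fintype γ] [Fintype δ]
    (f : α → β → γ → δ → ℂ) :
    ∑ x, ∑ y, ∑ a, ∑ b, f x y a b = ∑ a, ∑ b, ∑ x, ∑ y, f x y a b := by
  calc ∑ x, ∑ y, ∑ a, ∑ b, f x y a b = ∑ x, ∑ a, ∑ y, ∑ b, f x y a b :=
        Finset.sum_congr rfl fun x _ => Finset.sum_comm
    _ = ∑ a, ∑ x, ∑ y, ∑ b, f x y a b := Finset.sum_comm
    _ = ∑ a, ∑ x, ∑ b, ∑ y, f x y a b :=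
        Finset.sum_congr rfl fun a _ => Finset.sum_congr rfl fun x _ => Finset.sum_comm
    _ = ∑ a, ∑ b, ∑ x, ∑ y, f x y a b := Finset.sum_congr rfl fun a _ => Finset.sum_comm

theorem pf_D4 : T_D4 := by
  intro ι _ _ p S A hS hA c
  obtain ⟨m, v, hv⟩ := Matrix.posSemidef_iff_eq_sum_vecMulVec.1 hA
  set Φ : Matrix ι ι ℂ → ℂ := fun A => ∑ I, ∑ J, c I * conj (c J) * wedge S A I J with hΦ
  have hadd : ∀ A B, Φ (A + B) = Φ A + Φ B := by
    intro A B
    simp only [hΦ, wedge, Matrix.add_apply, mul_add, Finset.sum_add_distrib]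
  have hzero : Φ 0 = 0 := by
    simp only [hΦ, wedge, Matrix.zero_apply, mul_zero, Finset.sum_const_zero]
  let Ψ : Matrix ι ι ℂ →+ ℂ := ⟨⟨Φ, hzero⟩, hadd⟩
  have hsum : Φ A = ∑ k, Φ (Matrix.vecMulVec (v k) (star (v k))) := by
    have : Ψ A = ∑ k, Ψ (Matrix.vecMulVec (v k) (star (v k))) := by
      rw [hv, map_sum]
    exact this
  change 0 ≤ Φ A
  rw [hsum]
  apply Finset.sum_nonneg
  intro k _
  have h1 : Φ (Matrix.vecMulVec (v k) (star (v k))) = ((p + 1 : ℂ) ^ 2)⁻¹ *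
      ∑ a : Fin (p + 1), ∑ b : Fin (p + 1), (-1 : ℂ) ^ ((a : ℕ) + (b : ℕ)) *
      ∑ I, ∑ J, c I * conj (c J) * (S (I ∘ a.succAbove) (J ∘ b.succAbove) *
        (v k (I a) * conj (v k (J b)))) := by
    have h2 : Φ (Matrix.vecMulVec (v k) (star (v k))) =
        ∑ I, ∑ J, ∑ a : Fin (p + 1), ∑ b : Fin (p + 1), ((p + 1 : ℂ) ^ 2)⁻¹ *
          ((-1 : ℂ) ^ ((a : ℕ) + (b : ℕ)) * (c I * conj (c J) *
          (S (I ∘ a.succAbove) (J ∘ b.succAbove) * (v k (I a) * conj (v k (J b)))))) := by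
      simp only [hΦ]
      refine Finset.sum_congr rfl fun I _ => Finset.sum_congr rfl fun J _ => ?_
      simp only [wedge, Finset.mul_sum]
      refine Finset.sum_congr rfl fun a _ => Finset.sum_congr rfl fun b _ => ?_
      rw [Matrix.vecMulVec_apply, Pi.star_apply]
      simp only [RCLike.star_def]
      ring
    rw [h2, sum4]
    simp only [Finset.mul_sum]
  rw [h1]
  apply mul_nonneg
  · have : ((p + 1 : ℂ) ^ 2)⁻¹ = (((p + 1 : ℝ) ^ 2)⁻¹ : ℝ) := by push_cast; rfl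
    rw [this]
    exact_mod_cast (by positivity : (0 : ℝ) ≤ ((p + 1 : ℝ) ^ 2)⁻¹)
  · exact rank_one S hS c (v k)

end Pool.Agent.H50.EQ
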