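import Pool.Agent.H92.EQ.TF2

/-!
# Pull-back on projective space
-/

namespace Pool.Agent.H50.EQ

open scoped BigOperators ComplexConjugate ContDiff ComplexOrder
open MeasureTheory Pool.Agent.H92.EQ

/-- A sum over multi-indices vanishes if the sums over the coordinate `j` vanish. -/
theorem sum_zero_of_update {ι : Type} [Fintype ι] [DecidableEq ι] {p : ℕ} (j : Fin p)
    (F : (Fin p → ι) → ℂ) (h : ∀ I, ∑ a, F (Function.update I j a) = 0) : ∑ I, F I = 0 := by
  rw [← (Equiv.funSplitAt j ι).symm.sum_comp, Fintype.sum_prod_type, Finset.sum_comm]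
  refine Finset.sum_eq_zero fun g _ => ?_
  rcases isEmpty_or_nonempty ι with hι | ⟨⟨a0⟩⟩
  · exact Finset.sum_eq_zero fun a _ => (hι.false a).elim
  · rw [← h ((Equiv.funSplitAt j ι).symm (a0, g))]
    refine Finset.sum_congr rfl fun a _ => ?_
    congr 1
    funext l
    by_cases hl : l = j
    · subst hl
      simp [Equiv.funSplitAt, Equiv.piSplitAt]
    · simp [Equiv.funSplitAt, Equiv.piSplitAt, hl]

theorem prod_update {ι κ : Type} {p : ℕ} (M : ι → κ → ℂ) (I' : Fin p → ι) (I : Fin p → κ)
    (j : Fin p) (a : κ) :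
    ∏ l, M (I' l) (Function.update I j a l) =
      M (I' j) a * ∏ l ∈ Finset.univ.erase j, M (I' l) (I l) := by
  rw [← Finset.mul_prod_erase Finset.univ _ (Finset.mem_univ j), Function.update_self]
  congr 1
  refine Finset.prod_congr rfl fun l hl => ?_
  rw [Function.update_of_ne (Finset.ne_of_mem_erase hl)]

theorem prod_update' {ι κ : Type} {p : ℕ} (M : ι → κ → ℂ) (I' : Fin p → ι) (I : Fin p → κ)
    (j : Fin p) (a : ι) :
    ∏ l ∈ Finset.univ.erase j, M (Function.update I' j a l) (I l) =
      ∏ l ∈ Finset.univ.erase j, M (I' l) (I l) := by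
  refine Finset.prod_congr rfl fun l hl => ?_
  rw [Function.update_of_ne (Finset.ne_of_mem_erase hl)]

theorem pf_D5 (h1 : T_D1) (h2 : T_D2) (h11 : T_D11) : T_D5 := by
  intro N p D G S hD hG hS
  obtain ⟨-, hev, hjac, heul⟩ := h11 N D D G G hD hD hG hG
  have hpre : ev G ⁻¹' {0}ᶜ = {0}ᶜ := by
    ext z
    simp only [Set.mem_preimage, Set.mem_compl_iff, Set.mem_singleton_iff]
    constructor
    · rintro h rfl
      apply h
      have := hev 0 0
      rw [smul_zero, zero_pow (by omega), zero_smul] at this
      exact this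
    · intro h h0
      exact h (hG.nd z h0)
  have hne : ∀ z : Fin N → ℂ, z ≠ 0 → ev G z ≠ 0 := fun z hz h0 => hz (hG.nd z h0)
  have hSc : ClosedForm {0}ᶜ S := ⟨hS.cp.smooth, hS.cp.altL, hS.cp.altR, hS.cp.closedL,
    hS.cp.closedR⟩
  have hc := h1 (Fin N) (Fin N) p G {0}ᶜ S isOpen_compl_singleton hSc
  rw [hpre] at hc
  refine ⟨⟨hc.smooth, hc.altL, hc.altR, ?_, hc.closedL, hc.closedR⟩, ?_, ?_, ?_⟩
  · intro z hz
    exact h2 (Fin N) (Fin N) p G S z (hS.cp.psd (ev G z) (hne z hz))
  · intro l z hl hz I J
    have hlD : l ^ D ≠ 0 := pow_ne_zero _ hl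
    unfold pull
    rw [Finset.mul_sum]
    refine Finset.sum_congr rfl fun I' _ => ?_
    rw [Finset.mul_sum]
    refine Finset.sum_congr rfl fun J' _ => ?_
    rw [hev, hS.homog _ _ hlD (hne z hz), hjac]
    have e1 : ∏ x, (l ^ (D - 1) • jac G z) (I' x) (I x) =
        (l ^ (D - 1)) ^ p * ∏ x, jac G z (I' x) (I x) := by
      simp only [Matrix.smul_apply, smul_eq_mul, Finset.prod_mul_distrib, Finset.prod_const,
        Finset.card_univ, Fintype.card_fin]
    have e2 : ∏ x, conj ((l ^ (D - 1) • jac G z) (J' x) (J x)) =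
        conj ((l ^ (D - 1)) ^ p) * ∏ x, conj (jac G z (J' x) (J x)) := by
      simp only [Matrix.smul_apply, smul_eq_mul, map_mul, Finset.prod_mul_distrib,
        Finset.prod_const, Finset.card_univ, Fintype.card_fin, map_pow]
    rw [e1, e2]
    have e3 : (l ^ (D - 1)) ^ p * conj ((l ^ (D - 1)) ^ p) = ((‖l‖ ^ (2 * (D - 1) * p) : ℝ) : ℂ) := by
      rw [Complex.mul_conj, Complex.normSq_eq_norm_sq, norm_pow, norm_pow]
      congr 1
      rw [← pow_mul, ← pow_mul]
      congr 1
      ring
    have e4 : ((((‖l ^ D‖ ^ (2 * p))⁻¹ : ℝ)) : ℂ) * ((‖l‖ ^ (2 * (D - 1) * p) : ℝ) : ℂ) =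
        (((‖l‖ ^ (2 * p))⁻¹ : ℝ) : ℂ) := by
      rw [← Complex.ofReal_mul]
      congr 1
      have hl0 : 0 < ‖l‖ := norm_pos_iff.2 hl
      rw [norm_pow, ← pow_mul]
      have hDp : D * (2 * p) = 2 * (D - 1) * p + 2 * p := by
        obtain ⟨D', rfl⟩ : ∃ D', D = D' + 1 := ⟨D - 1, by omega⟩
        simp only [Nat.add_sub_cancel]
        ring
      rw [hDp, pow_add]
      field_simp
    calc _ = ((((‖l ^ D‖ ^ (2 * p))⁻¹ : ℝ)) : ℂ) *
          ((l ^ (D - 1)) ^ p * conj ((l ^ (D - 1)) ^ p)) *
          (S (ev G z) I' J' * (∏ x, jac G z (I' x) (I x)) * ∏ x, conj (jac G z (J' x) (J x))) := by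
            ring
      _ = _ := by rw [e3, e4]
  · intro z hz I J j
    have hF : ∀ I' : Fin p → Fin N, ∑ a, z a * ∑ J' : Fin p → Fin N,
        S (ev G z) I' J' * (∏ l, jac G z (I' l) (Function.update I j a l)) *
          ∏ l, conj (jac G z (J' l) (J l)) =
        (D : ℂ) * (∏ l ∈ Finset.univ.erase j, jac G z (I' l) (I l)) *
          ∑ J' : Fin p → Fin N, (ev G z (I' j) * S (ev G z) I' J') *
            ∏ l, conj (jac G z (J' l) (J l)) := by
      intro I'
      have hE : ∑ a, z a * jac G z (I' j) a = D * ev G z (I' j) := by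
        have := congrFun (heul z) (I' j)
        rw [Pi.smul_apply, smul_eq_mul] at this
        rw [← this]
        simp only [Matrix.mulVec, dotProduct]
        exact Finset.sum_congr rfl fun a _ => mul_comm _ _
      simp only [prod_update]
      calc _ = ∑ a, (z a * jac G z (I' j) a) *
            ((∏ l ∈ Finset.univ.erase j, jac G z (I' l) (I l)) *
            ∑ J' : Fin p → Fin N, S (ev G z) I' J' * ∏ l, conj (jac G z (J' l) (J l))) := by
              refine Finset.sum_congr rfl fun a _ => ?_
              rw [mul_assoc, Finset.mul_sum, Finset.mul_sum, Finset.mul_sum, Finset.mul_sum]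
              exact Finset.sum_congr rfl fun J' _ => by ring
        _ = _ := by
              rw [← Finset.sum_mul, hE, Finset.mul_sum, Finset.mul_sum, Finset.mul_sum]
              exact Finset.sum_congr rfl fun J' _ => by ring
    have hsw : ∑ a, z a * pull G S z (Function.update I j a) J =
        ∑ I' : Fin p → Fin N, ∑ a, z a * ∑ J' : Fin p → Fin N,
        S (ev G z) I' J' * (∏ l, jac G z (I' l) (Function.update I j a l)) *
          ∏ l, conj (jac G z (J' l) (J l)) := by
      unfold pull
      rw [Finset.sum_comm]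
      exact Finset.sum_congr rfl fun a _ => Finset.mul_sum _ _ _
    rw [hsw]
    simp only [hF]
    apply sum_zero_of_update j
    intro I'
    simp only [Function.update_self, prod_update']
    rw [← Finset.mul_sum, Finset.sum_comm]
    apply mul_eq_zero_of_right
    refine Finset.sum_eq_zero fun J' _ => ?_
    rw [← Finset.sum_mul, hS.basicL (ev G z) (hne z hz) I' J' j, zero_mul]
  · intro z hz I J j
    have hF : ∀ J' : Fin p → Fin N, ∑ a, conj (z a) * ∑ I' : Fin p → Fin N,
        S (ev G z) I' J' * (∏ l, jac G z (I' l) (I l)) *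
          ∏ l, conj (jac G z (J' l) (Function.update J j a l)) =
        (D : ℂ) * (∏ l ∈ Finset.univ.erase j, conj (jac G z (J' l) (J l))) *
          ∑ I' : Fin p → Fin N, (conj (ev G z (J' j)) * S (ev G z) I' J') *
            ∏ l, jac G z (I' l) (I l) := by
      intro J'
      have hE : ∑ a, conj (z a) * conj (jac G z (J' j) a) = D * conj (ev G z (J' j)) := by
        have := congrFun (heul z) (J' j)
        rw [Pi.smul_apply, smul_eq_mul] at this
        have h3 := congrArg conj this
        rw [map_mul, Complex.conj_natCast] at h3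
        rw [← h3]
        simp only [Matrix.mulVec, dotProduct, map_sum, map_mul]
        exact Finset.sum_congr rfl fun a _ => mul_comm _ _
      simp only [prod_update (fun x y => conj (jac G z x y))]
      calc _ = ∑ a, (conj (z a) * conj (jac G z (J' j) a)) *
            ((∏ l ∈ Finset.univ.erase j, conj (jac G z (J' l) (J l))) *
            ∑ I' : Fin p → Fin N, S (ev G z) I' J' * ∏ l, jac G z (I' l) (I l)) := by
              refine Finset.sum_congr rfl fun a _ => ?_
              rw [mul_assoc, Finset.mul_sum, Finset.mul_sum, Finset.mul_sum, Finset.mul_sum]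
              exact Finset.sum_congr rfl fun J' _ => by ring
        _ = _ := by
              rw [← Finset.sum_mul, hE, Finset.mul_sum, Finset.mul_sum, Finset.mul_sum]
              exact Finset.sum_congr rfl fun J' _ => by ring
    have hsw : ∑ a, conj (z a) * pull G S z I (Function.update J j a) =
        ∑ J' : Fin p → Fin N, ∑ a, conj (z a) * ∑ I' : Fin p → Fin N,
        S (ev G z) I' J' * (∏ l, jac G z (I' l) (I l)) *
          ∏ l, conj (jac G z (J' l) (Function.update J j a l)) := by
      unfold pull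
      rw [Finset.sum_comm]
      refine Finset.sum_congr rfl fun a _ => ?_
      rw [Finset.sum_comm, Finset.mul_sum]
    rw [hsw]
    simp only [hF]
    apply sum_zero_of_update j
    intro J'
    simp only [Function.update_self, prod_update' (fun x y => conj (jac G z x y))]
    rw [← Finset.mul_sum, Finset.sum_comm]
    apply mul_eq_zero_of_right
    refine Finset.sum_eq_zero fun I' _ => ?_
    rw [← Finset.sum_mul, hS.basicR (ev G z) (hne z hz) I' J' j, zero_mul]

end Pool.Agent.H50.EQ
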