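import Pool.Agent.H57.EQ.Targets
import Pool.Agent.H50.EQ.RED

/-!
# The reduction: realization
-/

set_option autoImplicit false

namespace Pool.Agent.H50.EQ

open Pool.Agent.H68.BP Pool.Agent.H58.SF Pool.Agent.H53.GC
open Pool.Agent.H57.EQ

/-- Realization of families of types all of whose parts with `M` elements are realized. -/
theorem real_of_stp {σ : Sig} {V X : Type} [LinearOrder V] {𝔸 : Str σ V} {M : ℕ}
    {c : V → V → Option X} {fr : X} (hs : Stp 𝔸 M c fr) : Real M c := by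
  classical
  intro n φ hφ
  have h3 := hs.three
  -- three points
  have tri : ∀ i j k : Fin n, ∃ x y z : V, c x y = φ i j ∧ c y x = φ j i ∧ c y z = φ j k ∧
      c x z = φ i k ∧ c x x = φ i i := by
    intro i j k
    obtain ⟨x, hx⟩ := hφ (fun a => if a.1 = 0 then i else if a.1 = 1 then j else k)
    have h0 := fun a b => hx a b
    refine ⟨x ⟨0, by omega⟩, x ⟨1, by omega⟩, x ⟨2, by omega⟩, ?_, ?_, ?_, ?_, ?_⟩
    · simpa using hx ⟨0, by omega⟩ ⟨1, by omega⟩
    · simpa using hx ⟨1, by omega⟩ ⟨0, by omega⟩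
    · simpa using hx ⟨1, by omega⟩ ⟨2, by omega⟩
    · simpa using hx ⟨0, by omega⟩ ⟨2, by omega⟩
    · simpa using hx ⟨0, by omega⟩ ⟨0, by omega⟩
  have hrefl : ∀ i, φ i i = none := by
    intro i
    obtain ⟨x, y, z, -, -, -, -, h⟩ := tri i i i
    rw [← h, hs.col.none_iff]
  have hsymm : ∀ i j, φ i j = φ j i := by
    intro i j
    obtain ⟨x, y, z, h1, h2, -⟩ := tri i j j
    rw [← h1, ← h2, hs.col.symm]
  have hcong : ∀ i j k, φ i j = none → φ i k = φ j k := by
    intro i j k h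
    obtain ⟨x, y, z, h1, h2, h4, h5, -⟩ := tri i j k
    rw [h] at h1
    have := (hs.col.none_iff x y).1 h1
    subst this
    rw [← h4, ← h5]
  let S : Setoid (Fin n) := ⟨fun i j => φ i j = none, hrefl, fun {i j} h => by
    rw [hsymm]; exact h, fun {i j k} h1 h2 => by rw [hcong i j k h1]; exact h2⟩
  have hfin : Finite (Quotient S) := Quotient.finite S
  obtain ⟨m, ⟨e⟩⟩ := Finite.exists_equiv_fin (Quotient S)
  let rep : Fin m → Fin n := fun a => (e.symm a).out
  let cl : Fin n → Fin m := fun i => e (Quotient.mk S i)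
  have hcl : ∀ i, φ (rep (cl i)) i = none := by
    intro i
    have h1 : Quotient.mk S (rep (cl i)) = Quotient.mk S i := by
      simp only [rep, cl, Equiv.symm_apply_apply, Quotient.out_eq]
    exact Quotient.exact h1
  have hrep : ∀ a b, a ≠ b → φ (rep a) (rep b) ≠ none := by
    intro a b hab h
    apply hab
    have h1 : Quotient.mk S (rep a) = Quotient.mk S (rep b) := Quotient.sound h
    simp only [rep, Quotient.out_eq] at h1
    exact e.symm.injective h1
  have hφ2 : ∀ i j, φ i j = φ (rep (cl i)) (rep (cl j)) := by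
    intro i j
    rw [hcong _ _ (rep (cl j)) (hcl i), hsymm i (rep (cl j)), hcong _ _ i (hcl j), hsymm]
  obtain ⟨f, hf1, hf2⟩ := hs.uni m (fun a b => (φ (rep a) (rep b)).getD fr) (by
    intro k s hk hs' _
    rcases Nat.eq_zero_or_pos k with hk0 | hk0
    · subst hk0
      exact ⟨fun i => i.elim0, fun i => i.elim0⟩
    · obtain ⟨x, hx⟩ := hφ (fun a => if h : a.1 < k then rep (s ⟨a.1, h⟩) else rep (s ⟨0, hk0⟩))
      refine ⟨fun i => x ⟨i.1, lt_of_lt_of_le i.2 hk⟩, fun i j hij => ?_⟩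
      have h1 := hx ⟨i.1, lt_of_lt_of_le i.2 hk⟩ ⟨j.1, lt_of_lt_of_le j.2 hk⟩
      simp only [i.2, j.2, dif_pos] at h1
      rw [h1]
      have h2 := hrep (s i) (s j) (hs' hij).ne
      obtain ⟨t, ht⟩ := Option.ne_none_iff_exists'.1 h2
      change φ (rep (s i)) (rep (s j)) = some ((φ (rep (s i)) (rep (s j))).getD fr)
      rw [ht]
      rfl)
  have hf3 : ∀ a b, a < b → c (f a) (f b) = φ (rep a) (rep b) := by
    intro a b hab
    rw [hf2 a b hab]
    obtain ⟨t, ht⟩ := Option.ne_none_iff_exists'.1 (hrep a b hab.ne)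
    rw [ht]
    rfl
  refine ⟨fun i => f (cl i), fun i j => ?_⟩
  rw [hφ2 i j]
  rcases lt_trichotomy (cl i) (cl j) with h | h | h
  · exact hf3 _ _ h
  · rw [h, hrefl, hs.col.none_iff]
    change f (cl i) = f (cl j)
    rw [h]
  · rw [hs.col.symm, hf3 _ _ h, hsymm]

theorem pf_RE1 : Pool.Agent.H57.EQ.T_RE1 := by
  intro σ V X _ 𝔸 M c fr hs n 𝕏
  exact re1 𝔸 M c (real_of_stp hs) hs.inv n 𝕏

theorem pf_REDE : Pool.Agent.H57.EQ.T_RED := by
  intro σ V X _ 𝔸 M c fr hs
  exact pf_RED 𝔸 M c (real_of_stp hs) hs.inv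

theorem pf_REA : Pool.Agent.H57.EQ.T_REA := by
  classical
  intro σ V X _ 𝔸 M c fr hs W _ q hq
  obtain ⟨n, ⟨e⟩⟩ := Finite.exists_equiv_fin W
  obtain ⟨γ, hγ⟩ := real_of_stp hs n (fun i j => q (e.symm i) (e.symm j))
    (fun p => hq (fun a => e.symm (p a)))
  refine ⟨fun w => γ (e w), fun u w => ?_⟩
  rw [hγ]
  simp

end Pool.Agent.H50.EQ
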